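import Mathlib

/-!
# MP_2ef8e1_nt: the sum of the squares of the gaps and the number of empty windows
-/

set_option autoImplicit false

open Finset

namespace Pool.Agent.H86.E153

/-- consecutive elements -/
def gaps (S : Finset ℕ) : Finset (ℕ × ℕ) :=
  (S ×ˢ S).filter fun p => p.1 < p.2 ∧ ∀ z ∈ S, ¬ (p.1 < z ∧ z < p.2)

/-- empty windows on the left -/
def WL (T : Finset ℕ) (n : ℕ) : Finset (ℕ × ℕ) :=
  (range n ×ˢ range n).filter fun q => q.1 + q.2 < n ∧ ∀ w ∈ T, ¬ (q.1 < w ∧ w ≤ q.1 + q.2)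

/-- empty windows on the right -/
def WR (T : Finset ℕ) (n : ℕ) : Finset (ℕ × ℕ) :=
  (range (2 * n) ×ˢ range (2 * n)).filter fun q => n - 1 ≤ q.1 ∧ q.1 + q.2 < 2 * n - 1 ∧
    ∀ w ∈ T, ¬ (q.1 < w ∧ w ≤ q.1 + q.2)

/-- the windows with left end at least `a` and right end less than `a + l` -/
def tri (a l : ℕ) : Finset (ℕ × ℕ) :=
  ((range l).sigma fun j => range (l - j)).image fun q => (a + q.1, q.2)

theorem mem_tri {a l : ℕ} {q : ℕ × ℕ} : q ∈ tri a l ↔ a ≤ q.1 ∧ q.1 + q.2 < a + l := by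
  unfold tri
  rw [mem_image]
  constructor
  · rintro ⟨⟨j, k⟩, h, rfl⟩
    rw [mem_sigma, mem_range, mem_range] at h
    dsimp only at h ⊢
    omega
  · rintro ⟨h1, h2⟩
    refine ⟨⟨q.1 - a, q.2⟩, ?_, ?_⟩
    · rw [mem_sigma, mem_range, mem_range]
      dsimp only
      omega
    · apply Prod.ext
      · dsimp only
        omega
      · rfl

theorem card_tri (a l : ℕ) : l ^ 2 ≤ 2 * (tri a l).card := by
  have h1 : (tri a l).card = ∑ j ∈ range l, (l - j) := by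
    unfold tri
    rw [card_image_of_injective, card_sigma]
    · simp only [card_range]
    · rintro ⟨j, k⟩ ⟨j', k'⟩ h
      simp only [Prod.mk.injEq, add_right_inj] at h
      obtain ⟨rfl, rfl⟩ := h
      rfl
  have h2 : ∀ l : ℕ, 2 * ∑ j ∈ range l, (l - j) = l * (l + 1) := by
    intro l
    induction l with
    | zero => simp
    | succ l ih =>
      rw [Finset.sum_range_succ']
      simp only [Nat.add_sub_add_right]
      rw [mul_add, ih]
      simp only [Nat.sub_zero]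
      ring
  rw [h1, h2]
  nlinarith

/-- the windows which belong to a gap, left part -/
def gL (n : ℕ) (p : ℕ × ℕ) : Finset (ℕ × ℕ) := tri (p.1 / 13) (min (p.2 / 13) n - p.1 / 13)

/-- the windows which belong to a gap, right part -/
def gR (n : ℕ) (p : ℕ × ℕ) : Finset (ℕ × ℕ) :=
  tri (max (p.1 / 13) (n - 1)) (p.2 / 13 - max (p.1 / 13) (n - 1))

theorem mem_gL {n : ℕ} {p q : ℕ × ℕ} (h : q ∈ gL n p) :
    p.1 < 13 * q.1 + 13 ∧ 13 * (q.1 + q.2) + 13 ≤ p.2 ∧ q.1 + q.2 < n := by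
  unfold gL at h
  rw [mem_tri] at h
  omega

theorem mem_gR {n : ℕ} {p q : ℕ × ℕ} (h : q ∈ gR n p) :
    p.1 < 13 * q.1 + 13 ∧ 13 * (q.1 + q.2) + 13 ≤ p.2 ∧ n - 1 ≤ q.1 := by
  unfold gR at h
  rw [mem_tri] at h
  omega

theorem gap_le (n : ℕ) (p : ℕ × ℕ) (hp : p.1 < p.2) :
    (p.2 - p.1) ^ 2 ≤ 507 + 1014 * ((gL n p).card + (gR n p).card) := by
  set l1 := min (p.2 / 13) n - p.1 / 13 with hl1
  set l2 := p.2 / 13 - max (p.1 / 13) (n - 1) with hl2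
  have h1 : l1 ^ 2 ≤ 2 * (gL n p).card := card_tri _ _
  have h2 : l2 ^ 2 ≤ 2 * (gR n p).card := card_tri _ _
  have h3 : p.2 - p.1 ≤ 13 * (l1 + l2 + 1) := by omega
  have h4 : (p.2 - p.1) ^ 2 ≤ (13 * (l1 + l2 + 1)) ^ 2 := Nat.pow_le_pow_left h3 2
  have h5 : (l1 + l2 + 1) ^ 2 ≤ 3 * (l1 ^ 2 + l2 ^ 2 + 1) := by
    zify
    nlinarith [sq_nonneg ((l1 : ℤ) - l2), sq_nonneg ((l1 : ℤ) - 1), sq_nonneg ((l2 : ℤ) - 1)]
  calc (p.2 - p.1) ^ 2 ≤ (13 * (l1 + l2 + 1)) ^ 2 := h4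
    _ = 169 * (l1 + l2 + 1) ^ 2 := by ring
    _ ≤ 169 * (3 * (l1 ^ 2 + l2 ^ 2 + 1)) := Nat.mul_le_mul_left _ h5
    _ ≤ _ := by omega

theorem mem_gaps {S : Finset ℕ} {p : ℕ × ℕ} : p ∈ gaps S ↔ (p.1 ∈ S ∧ p.2 ∈ S) ∧ p.1 < p.2 ∧
    ∀ z ∈ S, ¬ (p.1 < z ∧ z < p.2) := by
  unfold gaps
  rw [mem_filter, mem_product]

/-- a point lies in at most one gap -/
theorem gaps_unique {S : Finset ℕ} {p p' : ℕ × ℕ} (hp : p ∈ gaps S) (hp' : p' ∈ gaps S) {t : ℕ}
    (h1 : p.1 < t) (h2 : t ≤ p.2) (h1' : p'.1 < t) (h2' : t ≤ p'.2) : p = p' := by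
  rw [mem_gaps] at hp hp'
  obtain ⟨⟨a1, a2⟩, a3, a4⟩ := hp
  obtain ⟨⟨b1, b2⟩, b3, b4⟩ := hp'
  have e1 := a4 _ b1
  have e2 := b4 _ a1
  have e3 := a4 _ b2
  have e4 := b4 _ a2
  apply Prod.ext <;> omega

theorem card_gaps (S : Finset ℕ) : (gaps S).card ≤ S.card := by
  refine Finset.card_le_card_of_injOn (fun p => p.1) ?_ ?_
  · intro p hp
    exact (mem_gaps.1 hp).1.1
  · intro p hp p' hp' h
    have h1 := (mem_gaps.1 hp).2.1
    have h2 := (mem_gaps.1 hp').2.1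
    dsimp only at h
    exact gaps_unique hp hp' (t := p.1 + 1) (by omega) (by omega) (by omega) (by omega)

theorem gap_sum (S T : Finset ℕ) (n : ℕ)
    (hT : ∀ w ∈ T, ∃ s ∈ S, 13 * w + 1 ≤ s ∧ s ≤ 13 * w + 12)
    (hS : ∀ y ∈ S, y + 8 ≤ 26 * n) :
    ∑ p ∈ gaps S, (p.2 - p.1) ^ 2 ≤ 507 * S.card + 1014 * ((WL T n).card + (WR T n).card) := by
  have h1 : ∑ p ∈ gaps S, (p.2 - p.1) ^ 2 ≤
      ∑ p ∈ gaps S, (507 + 1014 * ((gL n p).card + (gR n p).card)) :=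
    Finset.sum_le_sum fun p hp => gap_le n p (mem_gaps.1 hp).2.1
  have hfree : ∀ p ∈ gaps S, ∀ q : ℕ × ℕ, p.1 < 13 * q.1 + 13 → 13 * (q.1 + q.2) + 13 ≤ p.2 →
      ∀ w ∈ T, ¬ (q.1 < w ∧ w ≤ q.1 + q.2) := by
    rintro p hp q h3 h4 w hw ⟨h5, h6⟩
    obtain ⟨s, hs, h7, h8⟩ := hT w hw
    exact (mem_gaps.1 hp).2.2 s hs ⟨by omega, by omega⟩
  have hL : ∑ p ∈ gaps S, (gL n p).card ≤ (WL T n).card := by
    rw [← Finset.card_biUnion]
    · refine Finset.card_le_card ?_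
      intro q hq
      rw [mem_biUnion] at hq
      obtain ⟨p, hp, hq⟩ := hq
      obtain ⟨h3, h4, h5⟩ := mem_gL hq
      unfold WL
      rw [mem_filter, mem_product, mem_range, mem_range]
      exact ⟨⟨by omega, by omega⟩, h5, hfree p hp q h3 h4⟩
    · intro p hp p' hp' hne
      rw [Function.onFun, Finset.disjoint_left]
      intro q hq hq'
      obtain ⟨h3, h4, -⟩ := mem_gL hq
      obtain ⟨h3', h4', -⟩ := mem_gL hq'
      exact hne (gaps_unique hp hp' h3 (by omega) h3' (by omega))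
  have hR : ∑ p ∈ gaps S, (gR n p).card ≤ (WR T n).card := by
    rw [← Finset.card_biUnion]
    · refine Finset.card_le_card ?_
      intro q hq
      rw [mem_biUnion] at hq
      obtain ⟨p, hp, hq⟩ := hq
      obtain ⟨h3, h4, h5⟩ := mem_gR hq
      have h6 := hS _ (mem_gaps.1 hp).1.2
      unfold WR
      rw [mem_filter, mem_product, mem_range, mem_range]
      exact ⟨⟨by omega, by omega⟩, h5, by omega, hfree p hp q h3 h4⟩
    · intro p hp p' hp' hne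
      rw [Function.onFun, Finset.disjoint_left]
      intro q hq hq'
      obtain ⟨h3, h4, -⟩ := mem_gR hq
      obtain ⟨h3', h4', -⟩ := mem_gR hq'
      exact hne (gaps_unique hp hp' h3 (by omega) h3' (by omega))
  have hc := card_gaps S
  have h2 : ∑ p ∈ gaps S, (507 + 1014 * ((gL n p).card + (gR n p).card)) =
      507 * (gaps S).card + 1014 * (∑ p ∈ gaps S, (gL n p).card + ∑ p ∈ gaps S, (gR n p).card) := by
    rw [Finset.sum_add_distrib, Finset.sum_const, smul_eq_mul, ← Finset.mul_sum,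
      Finset.sum_add_distrib]
    ring
  rw [h2] at h1
  omega

end Pool.Agent.H86.E153
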