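import Mathlib

/-!
# MP_2ef8e1_nt: summation over all windows
-/

set_option autoImplicit false

open Finset

namespace Pool.Agent.H86.E153

theorem sum_row {n p : ℕ} (hp : 1 ≤ p) (hn : n ≤ p ^ 2) (r : ℕ → ℕ → ℝ)
    (h1 : ∀ Z h, r Z h ≤ 1)
    (h2 : ∀ Z h, Z + h < n → 1 ≤ h → r Z h ≤ (200 * p * (p + h) / (h * (Z + 1))) ^ 2)
    (h3 : ∀ Z h Z' h', Z ≤ Z' → Z' + h' = Z + h → r Z h ≤ r Z' h') {Z : ℕ} (hZ : Z < n) :
    ∑ h ∈ range (n - Z), r Z h ≤ 4000000 * (p ^ 2 / (Z + 1)) := by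
  have hp1 : (1 : ℝ) ≤ p := by exact_mod_cast hp
  have hp0 : (0 : ℝ) < p := by linarith
  have hz0 : (0 : ℝ) < (Z : ℝ) + 1 := by positivity
  set D : ℝ := p ^ 2 / (Z + 1) with hD
  have hD1 : 1 ≤ D := by
    rw [hD, le_div_iff₀ hz0, one_mul]
    have : Z + 1 ≤ p ^ 2 := by omega
    exact_mod_cast this
  have hD0 : 0 < D := by linarith
  set d := ⌊D⌋₊ with hd
  have hd1 : (d : ℝ) ≤ D := Nat.floor_le hD0.le
  have hd2 : D < d + 1 := Nat.lt_floor_add_one D
  -- the pointwise bound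
  have key : ∀ h ∈ range (n - Z), r Z h ≤ (if h ≤ d then 1 else 0) +
      (if d < h then 160000 * D ^ 2 * ((h : ℝ) ^ 2)⁻¹ else 0) +
      (if h ≤ Z + 1 then 160000 * (p ^ 2 / ((Z : ℝ) + 1) ^ 2) else 0) +
      (if Z + 1 < h then 1440000 * p ^ 2 * ((h : ℝ) ^ 2)⁻¹ else 0) := by
    intro h hh
    rw [mem_range] at hh
    have n1 : (0 : ℝ) ≤ if h ≤ d then 1 else 0 := by split_ifs <;> norm_num
    have n2 : (0 : ℝ) ≤ if d < h then 160000 * D ^ 2 * ((h : ℝ) ^ 2)⁻¹ else 0 := by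
      split_ifs <;> positivity
    have n3 : (0 : ℝ) ≤ if h ≤ Z + 1 then 160000 * (p ^ 2 / ((Z : ℝ) + 1) ^ 2) else 0 := by
      split_ifs <;> positivity
    have n4 : (0 : ℝ) ≤ if Z + 1 < h then 1440000 * p ^ 2 * ((h : ℝ) ^ 2)⁻¹ else 0 := by
      split_ifs <;> positivity
    by_cases c1 : h ≤ d
    · rw [if_pos c1]
      linarith [h1 Z h]
    rw [not_le] at c1
    have hh1 : 1 ≤ h := by omega
    have hhr : (1 : ℝ) ≤ h := by exact_mod_cast hh1
    have hh0 : (0 : ℝ) < h := by linarith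
    by_cases c2 : h ≤ p
    · have c2' : (h : ℝ) ≤ p := by exact_mod_cast c2
      have h4 := h2 Z h (by omega) hh1
      have h5 : 200 * p * (p + h) / (h * ((Z : ℝ) + 1)) ≤ 400 * D / h := by
        rw [hD]
        have e1 : 400 * ((p : ℝ) ^ 2 / (Z + 1)) / h = (400 * p ^ 2) / (h * (Z + 1)) := by
          field_simp
        rw [e1]
        refine div_le_div_of_nonneg_right ?_ (by positivity)
        nlinarith
      have h6 : (200 * p * (p + h) / (h * ((Z : ℝ) + 1))) ^ 2 ≤ (400 * D / h) ^ 2 :=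
        pow_le_pow_left₀ (by positivity) h5 2
      have h7 : (400 * D / h) ^ 2 = 160000 * D ^ 2 * ((h : ℝ) ^ 2)⁻¹ := by
        field_simp
        norm_num
      rw [if_pos c1]
      linarith
    rw [not_le] at c2
    have c2' : (p : ℝ) ≤ h := by exact_mod_cast c2.le
    by_cases c3 : h ≤ Z + 1
    · have h4 := h2 Z h (by omega) hh1
      have h5 : 200 * p * (p + h) / (h * ((Z : ℝ) + 1)) ≤ 400 * p / (Z + 1) := by
        have e1 : 400 * (p : ℝ) / (Z + 1) = (400 * p * h) / (h * (Z + 1)) := by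
          field_simp
        rw [e1]
        refine div_le_div_of_nonneg_right ?_ (by positivity)
        nlinarith
      have h6 : (200 * p * (p + h) / (h * ((Z : ℝ) + 1))) ^ 2 ≤ (400 * p / (Z + 1)) ^ 2 :=
        pow_le_pow_left₀ (by positivity) h5 2
      have h7 : (400 * p / ((Z : ℝ) + 1)) ^ 2 = 160000 * (p ^ 2 / ((Z : ℝ) + 1) ^ 2) := by
        field_simp
        norm_num
      rw [if_pos c3]
      linarith
    · rw [not_le] at c3
      set Z' := (Z + h) / 2 with hZ'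
      have g1 : Z ≤ Z' := by omega
      have g2 : Z' ≤ Z + h := by omega
      have h4 := h3 Z h Z' (Z + h - Z') g1 (by omega)
      have h5 := h2 Z' (Z + h - Z') (by omega) (by omega)
      have g3 : (h : ℝ) / 2 ≤ ((Z + h - Z' : ℕ) : ℝ) := by
        have : h ≤ 2 * (Z + h - Z') := by omega
        have : (h : ℝ) ≤ 2 * ((Z + h - Z' : ℕ) : ℝ) := by exact_mod_cast this
        linarith
      have g4 : (h : ℝ) / 2 ≤ (Z' : ℝ) + 1 := by
        have : h ≤ 2 * (Z' + 1) := by omega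
        have : (h : ℝ) ≤ 2 * ((Z' : ℝ) + 1) := by exact_mod_cast this
        linarith
      set k : ℝ := ((Z + h - Z' : ℕ) : ℝ) with hk
      have hk0 : 0 < k := by linarith
      have h6 : 200 * p * (p + k) / (k * ((Z' : ℝ) + 1)) ≤ 1200 * p / h := by
        rw [div_le_div_iff₀ (by positivity) hh0]
        have t1 : (p : ℝ) + k ≤ 3 * k := by linarith
        have t2 : 200 * p * (p + k) * h ≤ 200 * p * (3 * k) * h := by
          refine mul_le_mul_of_nonneg_right ?_ hh0.le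
          exact mul_le_mul_of_nonneg_left t1 (by positivity)
        have t3 : 200 * p * (3 * k) * h ≤ 200 * p * (3 * k) * (2 * ((Z' : ℝ) + 1)) := by
          refine mul_le_mul_of_nonneg_left ?_ (by positivity)
          linarith
        linarith
      have h7 : (200 * p * (p + k) / (k * ((Z' : ℝ) + 1))) ^ 2 ≤ (1200 * p / h) ^ 2 :=
        pow_le_pow_left₀ (by positivity) h6 2
      have h8 : (1200 * p / (h : ℝ)) ^ 2 = 1440000 * p ^ 2 * ((h : ℝ) ^ 2)⁻¹ := by
        field_simp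
        norm_num
      rw [if_pos c3]
      linarith
  refine (Finset.sum_le_sum key).trans ?_
  rw [Finset.sum_add_distrib, Finset.sum_add_distrib, Finset.sum_add_distrib]
  have s1 : ∑ h ∈ range (n - Z), (if h ≤ d then (1 : ℝ) else 0) ≤ 2 * D := by
    rw [← Finset.sum_filter, Finset.sum_const, nsmul_eq_mul, mul_one]
    have : (filter (fun h => h ≤ d) (range (n - Z))).card ≤ d + 1 := by
      refine (Finset.card_le_card (t := range (d + 1)) ?_).trans (le_of_eq (card_range _))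
      intro h hh
      rw [mem_filter] at hh
      rw [mem_range]
      omega
    have : ((filter (fun h => h ≤ d) (range (n - Z))).card : ℝ) ≤ d + 1 := by exact_mod_cast this
    linarith
  have inv : ∀ k : ℕ, ∑ h ∈ (range (n - Z)).filter (fun h => k < h), ((h : ℝ) ^ 2)⁻¹ ≤
      2 / (k + 1) := by
    intro k
    refine le_trans ?_ (sum_Ioo_inv_sq_le k (n - Z))
    refine Finset.sum_le_sum_of_subset_of_nonneg ?_ fun _ _ _ => by positivity
    intro h hh
    rw [mem_filter, mem_range] at hh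
    rw [mem_Ioo]
    exact ⟨hh.2, hh.1⟩
  have s2 : ∑ h ∈ range (n - Z), (if d < h then 160000 * D ^ 2 * ((h : ℝ) ^ 2)⁻¹ else 0) ≤
      320000 * D := by
    rw [← Finset.sum_filter, ← Finset.mul_sum]
    have h4 := mul_le_mul_of_nonneg_left (inv d) (show (0 : ℝ) ≤ 160000 * D ^ 2 by positivity)
    refine h4.trans ?_
    rw [mul_div_assoc', div_le_iff₀ (by positivity)]
    nlinarith
  have s3 : ∑ h ∈ range (n - Z), (if h ≤ Z + 1 then 160000 * (p ^ 2 / ((Z : ℝ) + 1) ^ 2) else 0) ≤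
      320000 * D := by
    rw [← Finset.sum_filter, Finset.sum_const, nsmul_eq_mul]
    have : (filter (fun h => h ≤ Z + 1) (range (n - Z))).card ≤ Z + 2 := by
      refine (Finset.card_le_card (t := range (Z + 2)) ?_).trans (le_of_eq (card_range _))
      intro h hh
      rw [mem_filter] at hh
      rw [mem_range]
      omega
    have h4 : ((filter (fun h => h ≤ Z + 1) (range (n - Z))).card : ℝ) ≤ 2 * (Z + 1) := by
      have h5 : ((filter (fun h => h ≤ Z + 1) (range (n - Z))).card : ℝ) ≤ Z + 2 := by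
        exact_mod_cast this
      have : (0 : ℝ) ≤ Z := Nat.cast_nonneg _
      linarith
    refine (mul_le_mul_of_nonneg_right h4 (by positivity)).trans (le_of_eq ?_)
    rw [hD]
    field_simp
    norm_num
  have s4 : ∑ h ∈ range (n - Z), (if Z + 1 < h then 1440000 * p ^ 2 * ((h : ℝ) ^ 2)⁻¹ else 0) ≤
      2880000 * D := by
    rw [← Finset.sum_filter, ← Finset.mul_sum]
    have h4 := mul_le_mul_of_nonneg_left (inv (Z + 1))
      (show (0 : ℝ) ≤ 1440000 * p ^ 2 by positivity)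
    refine h4.trans ?_
    push_cast
    have h5 : (2 : ℝ) / (Z + 1 + 1) ≤ 2 / (Z + 1) := by
      refine div_le_div_of_nonneg_left (by norm_num) hz0 (by linarith)
    have h6 := mul_le_mul_of_nonneg_left h5 (show (0 : ℝ) ≤ 1440000 * p ^ 2 by positivity)
    refine h6.trans (le_of_eq ?_)
    rw [hD]
    field_simp
    norm_num
  linarith

theorem sum_rows {n p : ℕ} (hp : 1 ≤ p) (hn : n ≤ p ^ 2) (r : ℕ → ℕ → ℝ)
    (h1 : ∀ Z h, r Z h ≤ 1)
    (h2 : ∀ Z h, Z + h < n → 1 ≤ h → r Z h ≤ (200 * p * (p + h) / (h * (Z + 1))) ^ 2)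
    (h3 : ∀ Z h Z' h', Z ≤ Z' → Z' + h' = Z + h → r Z h ≤ r Z' h') :
    ∑ Z ∈ range n, ∑ h ∈ range (n - Z), r Z h ≤ 4000000 * p ^ 2 * (1 + Real.log n) := by
  have h4 : ∑ Z ∈ range n, ∑ h ∈ range (n - Z), r Z h ≤
      ∑ Z ∈ range n, 4000000 * ((p : ℝ) ^ 2 / ((Z : ℝ) + 1)) :=
    Finset.sum_le_sum fun Z hZ => sum_row hp hn r h1 h2 h3 (mem_range.1 hZ)
  refine h4.trans ?_
  have h5 := harmonic_le_one_add_log n
  have h6 : ∑ Z ∈ range n, 4000000 * ((p : ℝ) ^ 2 / ((Z : ℝ) + 1)) =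
      4000000 * p ^ 2 * (harmonic n : ℝ) := by
    rw [harmonic]
    push_cast
    rw [Finset.mul_sum]
    refine Finset.sum_congr rfl fun Z _ => ?_
    field_simp
  rw [h6]
  exact mul_le_mul_of_nonneg_left h5 (by positivity)

end Pool.Agent.H86.E153
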