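import Pool.Agent.H86.E153.Pair
import Pool.Agent.H86.E153.Sum
import Pool.Agent.H86.E153.Gap

/-!
# MP_2ef8e1_nt: the average over all translations
-/

set_option autoImplicit false

open Finset

namespace Pool.Agent.H86.E153

theorem Emp.mono {n : ℕ} {S S' : Finset (ZMod n)} {g g' : ZMod n} {Z h Z' h' : ℕ}
    (he : Emp S S' g g' Z h) (h1 : Z ≤ Z') (h2 : Z' + h' = Z + h) : Emp S S' g g' Z' h' := by
  rintro b hb b' hb' ⟨h3, h4⟩
  exact he b hb b' hb' ⟨by omega, by omega⟩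

/-- the sums of the classes `0, 1` and `2, 3` -/
def Ts {n : ℕ} (B : Fin 4 → Finset (ZMod n)) (q : (ZMod n × ZMod n) × (ZMod n × ZMod n)) :
    Finset ℕ :=
  (B 0 ×ˢ B 1).image (fun x => (x.1 + q.1.1).val + (x.2 + q.1.2).val) ∪
    (B 2 ×ˢ B 3).image (fun x => (x.1 + q.2.1).val + (x.2 + q.2.2).val)

theorem emp_of_free {n : ℕ} {B : Fin 4 → Finset (ZMod n)}
    {q : (ZMod n × ZMod n) × (ZMod n × ZMod n)} {u k : ℕ}
    (h : ∀ w ∈ Ts B q, ¬ (u < w ∧ w ≤ u + k)) :
    Emp (B 0) (B 1) q.1.1 q.1.2 u k ∧ Emp (B 2) (B 3) q.2.1 q.2.2 u k := by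
  unfold Ts at h
  constructor
  · intro b hb b' hb'
    exact h _ (mem_union_left _ (mem_image.2 ⟨(b, b'), mem_product.2 ⟨hb, hb'⟩, rfl⟩))
  · intro b hb b' hb'
    exact h _ (mem_union_right _ (mem_image.2 ⟨(b, b'), mem_product.2 ⟨hb, hb'⟩, rfl⟩))

section

variable {m p : ℕ} [NeZero (p * m)] {B : Fin 4 → Finset (ZMod (p * m))}

theorem cnt_le {n : ℕ} [NeZero n] (B : Fin 4 → Finset (ZMod n)) (i j : Fin 4) (Z h : ℕ) :
    cnt B i j Z h ≤ n ^ 2 := by
  classical
  unfold cnt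
  refine (Finset.card_filter_le _ _).trans (le_of_eq ?_)
  rw [Finset.card_univ, Fintype.card_prod, ZMod.card, sq]

theorem cnt_mono {n : ℕ} [NeZero n] (B : Fin 4 → Finset (ZMod n)) (i j : Fin 4) {Z h Z' h' : ℕ}
    (h1 : Z ≤ Z') (h2 : Z' + h' = Z + h) : cnt B i j Z h ≤ cnt B i j Z' h' := by
  classical
  unfold cnt
  refine Finset.card_le_card ?_
  intro q hq
  rw [mem_filter] at hq ⊢
  exact ⟨mem_univ _, hq.2.mono h1 h2⟩

theorem sum_WL (hm : 1 ≤ m) (hp : p = 4 * m + 1) (hB : DF m B) :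
    ∑ q : (ZMod (p * m) × ZMod (p * m)) × (ZMod (p * m) × ZMod (p * m)),
      ((WL (Ts B q) (p * m)).card : ℝ) ≤
      ((p : ℝ) * m) ^ 4 * (4000000 * p ^ 2 * (1 + Real.log ((p * m : ℕ) : ℝ))) := by
  classical
  have hpr : (4 * (m : ℝ) + 1) = p := by rw [hp]; push_cast; ring
  have hm0 : (0 : ℝ) < m := by exact_mod_cast hm
  have hp0 : (0 : ℝ) < p := by rw [← hpr]; positivity
  have hn0 : (0 : ℝ) < (p : ℝ) * m := by positivity
  have hnr : ((p * m : ℕ) : ℝ) = p * m := by push_cast; ring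
  -- pointwise
  have h1 : ∀ q : (ZMod (p * m) × ZMod (p * m)) × (ZMod (p * m) × ZMod (p * m)), ((WL (Ts B q) (p * m)).card : ℝ) ≤
      ∑ Z ∈ range (p * m), ∑ h ∈ range (p * m - Z),
        (if Emp (B 0) (B 1) q.1.1 q.1.2 Z h then (1 : ℝ) else 0) *
        (if Emp (B 2) (B 3) q.2.1 q.2.2 Z h then (1 : ℝ) else 0) := by
    intro q
    have h2 : (WL (Ts B q) (p * m)).card ≤ (((range (p * m)).sigma fun Z => range (p * m - Z)).filter fun x =>
        Emp (B 0) (B 1) q.1.1 q.1.2 x.1 x.2 ∧ Emp (B 2) (B 3) q.2.1 q.2.2 x.1 x.2).card := by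
      refine Finset.card_le_card_of_injOn (fun x => (⟨x.1, x.2⟩ : Σ _ : ℕ, ℕ)) ?_ ?_
      · intro x hx
        rw [mem_coe] at hx
        unfold WL at hx
        rw [mem_filter, mem_product, mem_range, mem_range] at hx
        rw [mem_coe, mem_filter, mem_sigma, mem_range, mem_range]
        dsimp only
        exact ⟨⟨hx.1.1, by omega⟩, emp_of_free hx.2.2⟩
      · intro x _ y _ h
        simp only [Sigma.mk.injEq, heq_eq_eq] at h
        exact Prod.ext h.1 h.2
    have h3 : ((WL (Ts B q) (p * m)).card : ℝ) ≤ ((((range (p * m)).sigma fun Z => range (p * m - Z)).filter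
        fun x => Emp (B 0) (B 1) q.1.1 q.1.2 x.1 x.2 ∧
          Emp (B 2) (B 3) q.2.1 q.2.2 x.1 x.2).card : ℝ) := by exact_mod_cast h2
    refine h3.trans (le_of_eq ?_)
    rw [Finset.card_filter]
    push_cast
    rw [Finset.sum_sigma]
    refine Finset.sum_congr rfl fun Z _ => Finset.sum_congr rfl fun h _ => ?_
    dsimp only
    split_ifs with a b c d e <;> simp_all
  -- the counts
  have h2 : ∑ q : (ZMod (p * m) × ZMod (p * m)) × (ZMod (p * m) × ZMod (p * m)), ((WL (Ts B q) (p * m)).card : ℝ) ≤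
      ∑ Z ∈ range (p * m), ∑ h ∈ range (p * m - Z), (cnt B 0 1 Z h : ℝ) * cnt B 2 3 Z h := by
    refine (Finset.sum_le_sum fun q _ => h1 q).trans (le_of_eq ?_)
    rw [Finset.sum_comm]
    refine Finset.sum_congr rfl fun Z _ => ?_
    rw [Finset.sum_comm]
    refine Finset.sum_congr rfl fun h _ => ?_
    unfold cnt
    rw [Finset.card_filter, Finset.card_filter]
    push_cast
    rw [Finset.sum_mul_sum, Fintype.sum_prod_type]
  refine h2.trans ?_
  set r : ℕ → ℕ → ℝ := fun Z h => (cnt B 0 1 Z h : ℝ) * cnt B 2 3 Z h / (p * m) ^ 4 with hr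
  have h3 : ∑ Z ∈ range (p * m), ∑ h ∈ range (p * m - Z), (cnt B 0 1 Z h : ℝ) * cnt B 2 3 Z h =
      (p * m) ^ 4 * ∑ Z ∈ range (p * m), ∑ h ∈ range (p * m - Z), r Z h := by
    rw [Finset.mul_sum]
    refine Finset.sum_congr rfl fun Z _ => ?_
    rw [Finset.mul_sum]
    refine Finset.sum_congr rfl fun h _ => ?_
    simp only [hr]
    field_simp
  rw [h3]
  refine mul_le_mul_of_nonneg_left ?_ (by positivity)
  refine sum_rows (p := p) (by omega) ?_ r ?_ ?_ ?_
  · rw [sq]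
    exact Nat.mul_le_mul_left p (by omega)
  · intro Z h
    simp only [hr]
    rw [div_le_one (by positivity)]
    have a1 : (cnt B 0 1 Z h : ℝ) ≤ (p * m) ^ 2 := by
      rw [← hnr]
      exact_mod_cast cnt_le B 0 1 Z h
    have a2 : (cnt B 2 3 Z h : ℝ) ≤ (p * m) ^ 2 := by
      rw [← hnr]
      exact_mod_cast cnt_le B 2 3 Z h
    calc (cnt B 0 1 Z h : ℝ) * cnt B 2 3 Z h ≤ (p * m) ^ 2 * (p * m) ^ 2 :=
          mul_le_mul a1 a2 (Nat.cast_nonneg _) (by positivity)
      _ = (p * m) ^ 4 := by ring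
  · intro Z h hZ hh
    simp only [hr]
    have a1 := pair_count hm hp hB 0 1 hZ hh
    have a2 := pair_count hm hp hB 2 3 hZ hh
    rw [div_le_iff₀ (by positivity)]
    calc (cnt B 0 1 Z h : ℝ) * cnt B 2 3 Z h ≤
          (((p : ℝ) * m) ^ 2 * (200 * p * (p + h) / (h * (Z + 1)))) *
          (((p : ℝ) * m) ^ 2 * (200 * p * (p + h) / (h * (Z + 1)))) :=
          mul_le_mul a1 a2 (Nat.cast_nonneg _) (by positivity)
      _ = _ := by ring
  · intro Z h Z' h' g1 g2
    simp only [hr]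
    refine div_le_div_of_nonneg_right ?_ (by positivity)
    have a1 : (cnt B 0 1 Z h : ℝ) ≤ cnt B 0 1 Z' h' := by exact_mod_cast cnt_mono B 0 1 g1 g2
    have a2 : (cnt B 2 3 Z h : ℝ) ≤ cnt B 2 3 Z' h' := by exact_mod_cast cnt_mono B 2 3 g1 g2
    exact mul_le_mul a1 a2 (Nat.cast_nonneg _) (Nat.cast_nonneg _)

end

/-! ### the reflection -/

theorem val_refl {n : ℕ} [NeZero n] (y : ZMod n) : (-y - 1).val = n - 1 - y.val := by
  have h1 : (-y - 1 : ZMod n) = ((n - 1 - y.val : ℕ) : ZMod n) := by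
    have h2 := ZMod.val_lt y
    rw [Nat.cast_sub (by omega), Nat.cast_sub (by omega)]
    rw [ZMod.natCast_self, ZMod.natCast_zmod_val]
    push_cast
    ring
  rw [h1, ZMod.val_cast_of_lt]
  have h2 := ZMod.val_lt y
  omega

theorem DF.neg {n m : ℕ} [NeZero n] {B : Fin 4 → Finset (ZMod n)} (hB : DF m B) :
    DF m (fun i => (B i).image fun b => -b) := by
  refine ⟨fun i => ?_, ?_⟩
  · rw [card_image_of_injective _ neg_injective, hB.card]
  · intro i j x hx x' hx' y hy y' hy' hne h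
    rw [mem_image] at hx hx' hy hy'
    obtain ⟨a, ha, rfl⟩ := hx
    obtain ⟨a', ha', rfl⟩ := hx'
    obtain ⟨b, hb, rfl⟩ := hy
    obtain ⟨b', hb', rfl⟩ := hy'
    obtain ⟨h1, h2, h3⟩ := hB.dif i j a' ha' a ha b' hb' b hb
      (fun e => hne (by rw [e])) (by linear_combination h)
    exact ⟨h1, by rw [h3], by rw [h2]⟩

/-- the reflected translations -/
def rfq {n : ℕ} : (ZMod n × ZMod n) × (ZMod n × ZMod n) ≃ (ZMod n × ZMod n) × (ZMod n × ZMod n) where
  toFun q := ((-q.1.1 - 1, -q.1.2 - 1), (-q.2.1 - 1, -q.2.2 - 1))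
  invFun q := ((-q.1.1 - 1, -q.1.2 - 1), (-q.2.1 - 1, -q.2.2 - 1))
  left_inv q := by
    obtain ⟨⟨a, b⟩, c, d⟩ := q
    simp
  right_inv q := by
    obtain ⟨⟨a, b⟩, c, d⟩ := q
    simp

theorem refl_mem {n : ℕ} [NeZero n] {B : Fin 4 → Finset (ZMod n)}
    {q : (ZMod n × ZMod n) × (ZMod n × ZMod n)} {w : ℕ}
    (hw : w ∈ Ts (fun i => (B i).image fun b => -b) (rfq q)) :
    ∃ w' ∈ Ts B q, w + w' = 2 * n - 2 := by
  have key : ∀ (b g b' g' : ZMod n), (-b + (-g - 1)).val + (-b' + (-g' - 1)).val +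
      ((b + g).val + (b' + g').val) = 2 * n - 2 := by
    intro b g b' g'
    have e1 : (-b + (-g - 1) : ZMod n) = -(b + g) - 1 := by ring
    have e2 : (-b' + (-g' - 1) : ZMod n) = -(b' + g') - 1 := by ring
    rw [e1, e2, val_refl, val_refl]
    have := ZMod.val_lt (b + g)
    have := ZMod.val_lt (b' + g')
    omega
  unfold Ts at hw ⊢
  rw [mem_union, mem_image, mem_image] at hw
  rcases hw with ⟨⟨x, y⟩, hx, rfl⟩ | ⟨⟨x, y⟩, hx, rfl⟩
  · rw [mem_product, mem_image, mem_image] at hx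
    obtain ⟨⟨b, hb, h1⟩, b', hb', h2⟩ := hx
    dsimp only at h1 h2
    subst h1 h2
    exact ⟨_, mem_union_left _ (mem_image.2 ⟨(b, b'), mem_product.2 ⟨hb, hb'⟩, rfl⟩),
      key b _ b' _⟩
  · rw [mem_product, mem_image, mem_image] at hx
    obtain ⟨⟨b, hb, h1⟩, b', hb', h2⟩ := hx
    dsimp only at h1 h2
    subst h1 h2
    exact ⟨_, mem_union_right _ (mem_image.2 ⟨(b, b'), mem_product.2 ⟨hb, hb'⟩, rfl⟩),
      key b _ b' _⟩

theorem WR_le {n : ℕ} [NeZero n] {B : Fin 4 → Finset (ZMod n)}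
    (q : (ZMod n × ZMod n) × (ZMod n × ZMod n)) :
    (WR (Ts B q) n).card ≤ (WL (Ts (fun i => (B i).image fun b => -b) (rfq q)) n).card + 2 * n := by
  classical
  have hn : 0 < n := Nat.pos_of_ne_zero (NeZero.ne n)
  rw [← Finset.card_filter_add_card_filter_not (s := WR (Ts B q) n) (fun x => x.1 + x.2 < 2 * n - 2)]
  refine add_le_add ?_ ?_
  · refine Finset.card_le_card_of_injOn (fun x => (2 * n - 3 - (x.1 + x.2), x.2)) ?_ ?_
    · intro x hx
      rw [mem_coe, mem_filter] at hx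
      obtain ⟨hx, h1⟩ := hx
      unfold WR at hx
      rw [mem_filter, mem_product, mem_range, mem_range] at hx
      obtain ⟨⟨h2, h3⟩, h4, h5, h6⟩ := hx
      rw [mem_coe]
      unfold WL
      rw [mem_filter, mem_product, mem_range, mem_range]
      dsimp only
      refine ⟨⟨by omega, by omega⟩, by omega, ?_⟩
      rintro w hw ⟨h7, h8⟩
      obtain ⟨w', hw', h9⟩ := refl_mem hw
      exact h6 w' hw' ⟨by omega, by omega⟩
    · intro x hx y hy h
      rw [mem_coe, mem_filter] at hx hy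
      simp only [Prod.mk.injEq] at h
      have h1 := hx.2
      have h2 := hy.2
      apply Prod.ext
      · omega
      · exact h.2
  · refine (Finset.card_le_card_of_injOn (t := range (2 * n)) (fun x => x.1) ?_ ?_).trans
      (le_of_eq (card_range _))
    · intro x hx
      rw [mem_coe, mem_filter] at hx
      obtain ⟨hx, h1⟩ := hx
      unfold WR at hx
      rw [mem_filter, mem_product, mem_range, mem_range] at hx
      rw [mem_coe, mem_range]
      exact hx.1.1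
    · intro x hx y hy h
      rw [mem_coe, mem_filter] at hx hy
      obtain ⟨hx, h1⟩ := hx
      obtain ⟨hy, h2⟩ := hy
      unfold WR at hx hy
      rw [mem_filter, mem_product, mem_range, mem_range] at hx hy
      dsimp only at h
      apply Prod.ext
      · exact h
      · omega

/-- good translations exist -/
theorem exists_q {m p : ℕ} [NeZero (p * m)] {B : Fin 4 → Finset (ZMod (p * m))} (hm : 1 ≤ m)
    (hp : p = 4 * m + 1) (hB : DF m B) :
    ∃ q : (ZMod (p * m) × ZMod (p * m)) × (ZMod (p * m) × ZMod (p * m)),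
      ((WL (Ts B q) (p * m)).card : ℝ) + (WR (Ts B q) (p * m)).card ≤
      8000000 * p ^ 2 * (1 + Real.log ((p * m : ℕ) : ℝ)) + 2 * (p * m) := by
  classical
  have h1 := sum_WL hm hp hB
  have h2 := sum_WL hm hp hB.neg
  have h3 : ∑ q : (ZMod (p * m) × ZMod (p * m)) × (ZMod (p * m) × ZMod (p * m)),
      ((WR (Ts B q) (p * m)).card : ℝ) ≤ ∑ q : (ZMod (p * m) × ZMod (p * m)) ×
        (ZMod (p * m) × ZMod (p * m)),
        (((WL (Ts (fun i => (B i).image fun b => -b) (rfq q)) (p * m)).card : ℝ) +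
          2 * (p * m)) := by
    refine Finset.sum_le_sum fun q _ => ?_
    exact_mod_cast WR_le q
  rw [Finset.sum_add_distrib, Equiv.sum_comp rfq
    (fun q => ((WL (Ts (fun i => (B i).image fun b => -b) q) (p * m)).card : ℝ)),
    Finset.sum_const] at h3
  have hcard : (univ : Finset ((ZMod (p * m) × ZMod (p * m)) ×
      (ZMod (p * m) × ZMod (p * m)))).card = (p * m) ^ 4 := by
    rw [Finset.card_univ, Fintype.card_prod, Fintype.card_prod, ZMod.card]
    ring
  rw [hcard, nsmul_eq_mul] at h3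
  push_cast at h3
  have h4 : ∑ q : (ZMod (p * m) × ZMod (p * m)) × (ZMod (p * m) × ZMod (p * m)),
      (((WL (Ts B q) (p * m)).card : ℝ) + (WR (Ts B q) (p * m)).card) ≤
      ∑ _q : (ZMod (p * m) × ZMod (p * m)) × (ZMod (p * m) × ZMod (p * m)),
      (8000000 * (p : ℝ) ^ 2 * (1 + Real.log ((p * m : ℕ) : ℝ)) + 2 * (p * m)) := by
    rw [Finset.sum_add_distrib, Finset.sum_const, hcard, nsmul_eq_mul]
    push_cast at h1 h2 ⊢
    nlinarith
  obtain ⟨q, -, hq⟩ := Finset.exists_le_of_sum_le univ_nonempty h4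
  exact ⟨q, hq⟩

end Pool.Agent.H86.E153
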