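import Pool.Agent.H86.E153.Var

/-!
# MP_2ef8e1_nt: the cyclotomic difference family in `ZMod (p * m)`, `p = 4 m + 1`
-/

set_option autoImplicit false

open Finset

namespace Pool.Agent.H86.E153

theorem exists_DF (p m : ℕ) (hp : p.Prime) (hpm : p = 4 * m + 1) (hm : 1 ≤ m) :
    ∃ B : Fin 4 → Finset (ZMod (p * m)), DF m B := by
  have : Fact p.Prime := ⟨hp⟩
  have : NeZero m := ⟨by omega⟩
  have : NeZero p := ⟨hp.ne_zero⟩
  have hco : p.Coprime m := (Nat.Prime.coprime_iff_not_dvd hp).2 fun h => by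
    have := Nat.le_of_dvd hm h
    omega
  obtain ⟨u, hu⟩ := IsCyclic.exists_generator (α := (ZMod p)ˣ)
  have hord : orderOf u = 4 * m := by
    rw [orderOf_eq_card_of_forall_mem_zpowers hu, Nat.card_eq_fintype_card, ZMod.card_units p]
    omega
  let e := ZMod.chineseRemainder hco
  let f : Fin 4 → ℕ → ZMod (p * m) := fun i k =>
    e.symm (((u ^ (i.1 + 4 * k) : (ZMod p)ˣ) : ZMod p), (k : ZMod m))
  have hf : ∀ i k, e (f i k) = (((u ^ (i.1 + 4 * k) : (ZMod p)ˣ) : ZMod p), (k : ZMod m)) :=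
    fun i k => e.apply_symm_apply _
  have hinj : ∀ i k k', k < m → k' < m → f i k = f i k' → k = k' := by
    intro i k k' hk hk' h
    have h1 := congrArg e h
    rw [hf, hf] at h1
    have h2 := (Prod.ext_iff.1 h1).2
    change (k : ZMod m) = (k' : ZMod m) at h2
    rw [ZMod.natCast_eq_natCast_iff] at h2
    exact Nat.ModEq.eq_of_lt_of_lt h2 hk hk'
  refine ⟨fun i => (range m).image (f i), ?_, ?_⟩
  · intro i
    rw [card_image_of_injOn, card_range]
    intro k hk k' hk' h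
    rw [coe_range, Set.mem_Iio] at hk hk'
    exact hinj i k k' hk hk' h
  · intro i j x hx x' hx' y hy y' hy' hne h
    rw [mem_image] at hx hx' hy hy'
    obtain ⟨k, hk, rfl⟩ := hx
    obtain ⟨k', hk', rfl⟩ := hx'
    obtain ⟨l, hl, rfl⟩ := hy
    obtain ⟨l', hl', rfl⟩ := hy'
    rw [mem_range] at hk hk' hl hl'
    have h1 := congrArg e h
    rw [map_sub, map_sub, hf, hf, hf, hf] at h1
    have h2 := (Prod.ext_iff.1 h1).1
    have h3 := (Prod.ext_iff.1 h1).2
    change ((u ^ (i.1 + 4 * k) : (ZMod p)ˣ) : ZMod p) - ((u ^ (i.1 + 4 * k') : (ZMod p)ˣ) : ZMod p)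
      = ((u ^ (j.1 + 4 * l) : (ZMod p)ˣ) : ZMod p) -
        ((u ^ (j.1 + 4 * l') : (ZMod p)ˣ) : ZMod p) at h2
    change (k : ZMod m) - (k' : ZMod m) = (l : ZMod m) - (l' : ZMod m) at h3
    -- `k + l' = l + k'` modulo `m`
    have h4 : ((k + l' : ℕ) : ZMod m) = ((l + k' : ℕ) : ZMod m) := by
      push_cast
      linear_combination h3
    rw [ZMod.natCast_eq_natCast_iff] at h4
    have h5 : 4 * (k + l') ≡ 4 * (l + k') [MOD 4 * m] := h4.mul_left' 4
    have h6 : u ^ (4 * (k + l')) = u ^ (4 * (l + k')) := by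
      rw [pow_eq_pow_iff_modEq, hord]
      exact h5
    -- the four elements
    set a : ZMod p := ((u ^ (i.1 + 4 * k) : (ZMod p)ˣ) : ZMod p) with ha
    set a' : ZMod p := ((u ^ (i.1 + 4 * k') : (ZMod p)ˣ) : ZMod p) with ha'
    set b : ZMod p := ((u ^ (j.1 + 4 * l) : (ZMod p)ˣ) : ZMod p) with hb
    set b' : ZMod p := ((u ^ (j.1 + 4 * l') : (ZMod p)ˣ) : ZMod p) with hb'
    have h7 : a * b' = b * a' := by
      rw [ha, hb', hb, ha', ← Units.val_mul, ← Units.val_mul, ← pow_add, ← pow_add]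
      have e1 : i.1 + 4 * k + (j.1 + 4 * l') = (i.1 + j.1) + 4 * (k + l') := by ring
      have e2 : j.1 + 4 * l + (i.1 + 4 * k') = (i.1 + j.1) + 4 * (l + k') := by ring
      rw [e1, e2, pow_add u (i.1 + j.1) (4 * (k + l')), pow_add u (i.1 + j.1) (4 * (l + k')), h6]
    have hab : a ≠ a' := by
      intro hh
      apply hne
      have h8 : u ^ (i.1 + 4 * k) = u ^ (i.1 + 4 * k') := Units.ext hh
      rw [pow_eq_pow_iff_modEq, hord] at h8
      have h9 : 4 * k ≡ 4 * k' [MOD 4 * m] := Nat.ModEq.add_left_cancel' _ h8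
      have h10 : k ≡ k' [MOD m] := Nat.ModEq.mul_left_cancel' (by norm_num) h9
      rw [Nat.ModEq.eq_of_lt_of_lt h10 hk hk']
    -- `(a - a') (a' - b') = 0`
    have h8 : (a - a') * (a' - b') = 0 := by
      linear_combination a' * h2 - h7
    have h9 : a' = b' := by
      rcases mul_eq_zero.1 h8 with h9 | h9
      · exact absurd (sub_eq_zero.1 h9) hab
      · exact sub_eq_zero.1 h9
    have h10 : a = b := by
      rw [h9] at h2
      exact sub_left_injective h2
    have key : ∀ (k l : ℕ), k < m → l < m →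
        ((u ^ (i.1 + 4 * k) : (ZMod p)ˣ) : ZMod p) = ((u ^ (j.1 + 4 * l) : (ZMod p)ˣ) : ZMod p) →
        i = j ∧ k = l := by
      intro k l hk hl hh
      have h8 : u ^ (i.1 + 4 * k) = u ^ (j.1 + 4 * l) := Units.ext hh
      rw [pow_eq_pow_iff_modEq, hord] at h8
      have hi := i.2
      have hj := j.2
      have h11 : i.1 + 4 * k = j.1 + 4 * l := Nat.ModEq.eq_of_lt_of_lt h8 (by omega) (by omega)
      exact ⟨Fin.ext (by omega), by omega⟩
    obtain ⟨rfl, rfl⟩ := key k l hk hl h10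
    obtain ⟨-, rfl⟩ := key k' l' hk' hl' h9
    exact ⟨rfl, rfl, rfl⟩

end Pool.Agent.H86.E153
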