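import Pool.Agent.H86.E153.Avg
import Pool.Agent.H86.E153.Fam

/-!
# MP_2ef8e1_nt: Sidon sets with mean square gap of order `log`
-/

set_option autoImplicit false
set_option linter.unusedSectionVars false

open Finset
open Pointwise

namespace Pool.Agent.H86.E153

/-- the labels -/
def lab : Fin 4 → ℕ := ![0, 1, 3, 9]

theorem lab_le (i : Fin 4) : lab i ≤ 9 := by
  revert i
  decide

theorem lab_sidon : ∀ i j k l : Fin 4, (lab i + lab j) % 13 = (lab k + lab l) % 13 →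
    (i = k ∧ j = l) ∨ (i = l ∧ j = k) := by
  decide

/-- the translation of the class `i` -/
def gq {n : ℕ} (q : (ZMod n × ZMod n) × (ZMod n × ZMod n)) : Fin 4 → ZMod n :=
  ![q.1.1, q.1.2, q.2.1, q.2.2]

/-- the set -/
def As {n : ℕ} (B : Fin 4 → Finset (ZMod n)) (q : (ZMod n × ZMod n) × (ZMod n × ZMod n)) :
    Finset ℕ :=
  ((univ : Finset (Fin 4)).sigma B).image fun x => 13 * (x.2 + gq q x.1).val + lab x.1

theorem mem_As {n : ℕ} {B : Fin 4 → Finset (ZMod n)}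
    {q : (ZMod n × ZMod n) × (ZMod n × ZMod n)} {a : ℕ} :
    a ∈ As B q ↔ ∃ i, ∃ b ∈ B i, 13 * (b + gq q i).val + lab i = a := by
  unfold As
  rw [mem_image]
  constructor
  · rintro ⟨⟨i, b⟩, h, rfl⟩
    rw [mem_sigma] at h
    exact ⟨i, b, h.2, rfl⟩
  · rintro ⟨i, b, hb, rfl⟩
    exact ⟨⟨i, b⟩, mem_sigma.2 ⟨mem_univ _, hb⟩, rfl⟩

section

variable {n m : ℕ} [NeZero n] {B : Fin 4 → Finset (ZMod n)}
  {q : (ZMod n × ZMod n) × (ZMod n × ZMod n)}

theorem card_As (hB : DF m B) : (As B q).card = 4 * m := by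
  unfold As
  rw [card_image_of_injOn, card_sigma]
  · simp only [hB.card, Finset.sum_const, Finset.card_univ, Fintype.card_fin, smul_eq_mul]
  · rintro ⟨i, b⟩ _ ⟨j, c⟩ _ h
    dsimp only at h
    have hi := lab_le i
    have hj := lab_le j
    have h1 : lab i = lab j := by omega
    have h2 : i = j := by
      have h3 := lab_sidon i i j j (by rw [h1])
      rcases h3 with h3 | h3 <;> exact h3.1
    subst h2
    have h3 : (b + gq q i).val = (c + gq q i).val := by omega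
    have h4 := ZMod.val_injective n h3
    rw [add_right_cancel h4]

theorem sidon_As (hB : DF m B) : ∀ a ∈ As B q, ∀ b ∈ As B q, ∀ c ∈ As B q, ∀ d ∈ As B q,
    a + b = c + d → (a = c ∧ b = d) ∨ (a = d ∧ b = c) := by
  -- the case of equal classes
  have key : ∀ i j : Fin 4, ∀ x ∈ B i, ∀ y ∈ B j, ∀ z ∈ B i, ∀ w ∈ B j,
      (x + gq q i).val + (y + gq q j).val = (z + gq q i).val + (w + gq q j).val →
      (x = z ∧ y = w) ∨ (i = j ∧ x = w ∧ y = z) := by
    intro i j x hx y hy z hz w hw h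
    have h1 := congrArg (fun t : ℕ => (t : ZMod n)) h
    push_cast at h1
    simp only [ZMod.natCast_zmod_val] at h1
    have h2 : x - z = w - y := by linear_combination h1
    by_cases hxz : x = z
    · left
      subst hxz
      refine ⟨rfl, ?_⟩
      rw [sub_self] at h2
      exact (sub_eq_zero.1 h2.symm).symm
    · right
      obtain ⟨e1, e2, e3⟩ := hB.dif i j x hx z hz w hw y hy hxz h2
      exact ⟨e1, e2, e3.symm⟩
  intro a ha b hb c hc d hd h
  rw [mem_As] at ha hb hc hd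
  obtain ⟨i, x, hx, rfl⟩ := ha
  obtain ⟨j, y, hy, rfl⟩ := hb
  obtain ⟨k, z, hz, rfl⟩ := hc
  obtain ⟨l, w, hw, rfl⟩ := hd
  have h1 : (lab i + lab j) % 13 = (lab k + lab l) % 13 := by omega
  rcases lab_sidon i j k l h1 with ⟨rfl, rfl⟩ | ⟨rfl, rfl⟩
  · rcases key i j x hx y hy z hz w hw (by omega) with ⟨rfl, rfl⟩ | ⟨rfl, rfl, rfl⟩
    · exact Or.inl ⟨rfl, rfl⟩
    · exact Or.inr ⟨rfl, rfl⟩
  · rcases key i j x hx y hy w hw z hz (by omega) with ⟨rfl, rfl⟩ | ⟨rfl, rfl, rfl⟩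
    · exact Or.inr ⟨rfl, rfl⟩
    · exact Or.inl ⟨rfl, rfl⟩

theorem As_le {a : ℕ} (ha : a ∈ As B q) : a + 4 ≤ 13 * n := by
  rw [mem_As] at ha
  obtain ⟨i, x, _, rfl⟩ := ha
  have h1 := ZMod.val_lt (x + gq q i)
  have h2 := lab_le i
  omega

theorem Ts_As {w : ℕ} (hw : w ∈ Ts B q) :
    ∃ s ∈ As B q + As B q, 13 * w + 1 ≤ s ∧ s ≤ 13 * w + 12 := by
  unfold Ts at hw
  rw [mem_union, mem_image, mem_image] at hw
  rcases hw with ⟨⟨x, y⟩, hx, rfl⟩ | ⟨⟨x, y⟩, hx, rfl⟩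
  · rw [mem_product] at hx
    refine ⟨(13 * (x + gq q 0).val + lab 0) + (13 * (y + gq q 1).val + lab 1),
      Finset.add_mem_add (mem_As.2 ⟨0, x, hx.1, rfl⟩) (mem_As.2 ⟨1, y, hx.2, rfl⟩), ?_⟩
    have e0 : lab 0 = 0 := rfl
    have e1 : lab 1 = 1 := rfl
    have g0 : gq q 0 = q.1.1 := rfl
    have g1 : gq q 1 = q.1.2 := rfl
    rw [e0, e1, g0, g1]
    dsimp only
    omega
  · rw [mem_product] at hx
    refine ⟨(13 * (x + gq q 2).val + lab 2) + (13 * (y + gq q 3).val + lab 3),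
      Finset.add_mem_add (mem_As.2 ⟨2, x, hx.1, rfl⟩) (mem_As.2 ⟨3, y, hx.2, rfl⟩), ?_⟩
    have e0 : lab 2 = 3 := rfl
    have e1 : lab 3 = 9 := rfl
    have g0 : gq q 2 = q.2.1 := rfl
    have g1 : gq q 3 = q.2.2 := rfl
    rw [e0, e1, g0, g1]
    dsimp only
    omega

end

/-- the size of the sumset of a Sidon set -/
theorem card_sumset (A : Finset ℕ) (hS : ∀ a ∈ A, ∀ b ∈ A, ∀ c ∈ A, ∀ d ∈ A, a + b = c + d →
    (a = c ∧ b = d) ∨ (a = d ∧ b = c)) : A.card ^ 2 ≤ 2 * (A + A).card := by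
  classical
  have h1 : (A ×ˢ A).card ≤ 2 * ((A ×ˢ A).image fun x => x.1 + x.2).card := by
    refine Finset.card_le_mul_card_image _ 2 ?_
    intro s hs
    rw [mem_image] at hs
    obtain ⟨⟨a, b⟩, hab, rfl⟩ := hs
    rw [mem_product] at hab
    have h2 : ((A ×ˢ A).filter fun x => x.1 + x.2 = a + b) ⊆ {(a, b), (b, a)} := by
      rintro ⟨c, d⟩ hx
      rw [mem_filter, mem_product] at hx
      rw [mem_insert, mem_singleton]
      rcases hS c hx.1.1 d hx.1.2 a hab.1 b hab.2 hx.2 with ⟨rfl, rfl⟩ | ⟨rfl, rfl⟩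
      · exact Or.inl rfl
      · exact Or.inr rfl
    exact (Finset.card_le_card h2).trans Finset.card_le_two
  rw [card_product, ← sq] at h1
  exact h1

/-- the mean square gap -/
noncomputable def msg (A : Finset ℕ) : ℝ :=
  (1 / ((A + A).card : ℝ)) *
    ∑ p ∈ ((A + A) ×ˢ (A + A)).filter
        (fun p => p.1 < p.2 ∧ ∀ z ∈ A + A, ¬ (p.1 < z ∧ z < p.2)),
      ((p.2 : ℝ) - (p.1 : ℝ)) ^ 2

theorem main : ∃ C : ℝ, ∀ N : ℕ, ∃ A : Finset ℕ, N ≤ A.card ∧ (∀ a ∈ A, a ≤ 4 * A.card ^ 2) ∧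
    (∀ a ∈ A, ∀ b ∈ A, ∀ c ∈ A, ∀ d ∈ A, a + b = c + d → (a = c ∧ b = d) ∨ (a = d ∧ b = c)) ∧
    msg A ≤ C * Real.log A.card := by
  refine ⟨100000000000, fun N => ?_⟩
  obtain ⟨p, hp, hpN, hp1⟩ := Nat.exists_prime_gt_modEq_one (k := 4) (N + 8) (by norm_num)
  obtain ⟨m, hpm⟩ : ∃ m, p = 4 * m + 1 := by
    have h1 : p % 4 = 1 := hp1
    exact ⟨p / 4, by omega⟩
  have hm : 2 ≤ m := by omega
  have hm1 : 1 ≤ m := by omega
  have : NeZero (p * m) := ⟨by
    have : 0 < p * m := Nat.mul_pos hp.pos (by omega)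
    omega⟩
  obtain ⟨B, hB⟩ := exists_DF p m hp hpm hm1
  obtain ⟨q, hq⟩ := exists_q hm1 hpm hB
  set A := As B q with hA
  have hcard : A.card = 4 * m := card_As hB
  have hsid := sidon_As (q := q) hB
  rw [← hA] at hsid
  refine ⟨A, by omega, ?_, hsid, ?_⟩
  · intro a ha
    have h1 := As_le ha
    rw [hcard]
    subst hpm
    nlinarith
  · have hS := card_sumset A hsid
    rw [hcard] at hS
    have hg := gap_sum (A + A) (Ts B q) (p * m) (fun w hw => Ts_As hw) (by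
      intro y hy
      rw [Finset.mem_add] at hy
      obtain ⟨a, ha, b, hb, rfl⟩ := hy
      have h1 := As_le ha
      have h2 := As_le hb
      omega)
    have hg' : ∑ x ∈ gaps (A + A), ((x.2 : ℝ) - (x.1 : ℝ)) ^ 2 ≤ 507 * (A + A).card +
        1014 * (((WL (Ts B q) (p * m)).card : ℝ) + (WR (Ts B q) (p * m)).card) := by
      have h1 : ∑ x ∈ gaps (A + A), ((x.2 : ℝ) - (x.1 : ℝ)) ^ 2 =
          ((∑ x ∈ gaps (A + A), (x.2 - x.1) ^ 2 : ℕ) : ℝ) := by
        push_cast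
        refine Finset.sum_congr rfl fun x hx => ?_
        rw [Nat.cast_sub (mem_gaps.1 hx).2.1.le]
      rw [h1]
      exact_mod_cast hg
    have hmr : (2 : ℝ) ≤ m := by exact_mod_cast hm
    have hm0 : (0 : ℝ) < m := by linarith
    have hpr : (p : ℝ) = 4 * m + 1 := by rw [hpm]; push_cast; ring
    have hp5 : (p : ℝ) ≤ 5 * m := by rw [hpr]; linarith
    have hp0 : (0 : ℝ) < p := by rw [hpr]; positivity
    set t : ℝ := ((A + A).card : ℝ) with ht
    have htm : 8 * (m : ℝ) ^ 2 ≤ t := by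
      have h1 : (4 * m) ^ 2 ≤ 2 * (A + A).card := hS
      have h2 : ((4 * m : ℕ) : ℝ) ^ 2 ≤ 2 * t := by rw [ht]; exact_mod_cast h1
      push_cast at h2
      linarith
    have ht0 : 0 < t := by
      have : 0 < 8 * (m : ℝ) ^ 2 := by positivity
      linarith
    set L : ℝ := Real.log ((4 * m : ℕ) : ℝ) with hL
    have hL1 : 1 ≤ L := by
      rw [hL, Real.le_log_iff_exp_le (by push_cast; positivity)]
      have := Real.exp_one_lt_d9
      push_cast
      linarith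
    have hlog : Real.log ((p * m : ℕ) : ℝ) ≤ 2 * L := by
      rw [hL, ← Nat.cast_ofNat (n := 2), ← Real.log_pow]
      have hpos : 0 < p * m := Nat.mul_pos hp.pos (by omega)
      refine Real.log_le_log (by exact_mod_cast hpos) ?_
      push_cast
      nlinarith
    have hlog0 : 0 ≤ Real.log ((p * m : ℕ) : ℝ) := Real.log_natCast_nonneg _
    have hW : ((WL (Ts B q) (p * m)).card : ℝ) + (WR (Ts B q) (p * m)).card ≤
        (75000000 * L + 2) * t := by
      have e1 : (8000000 : ℝ) * p ^ 2 * (1 + Real.log ((p * m : ℕ) : ℝ)) ≤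
          8000000 * (25 * m ^ 2) * (3 * L) := by
        have a1 : (p : ℝ) ^ 2 ≤ 25 * m ^ 2 := by nlinarith
        have a2 : 1 + Real.log ((p * m : ℕ) : ℝ) ≤ 3 * L := by linarith
        have a3 : (8000000 : ℝ) * p ^ 2 ≤ 8000000 * (25 * m ^ 2) := by linarith
        exact mul_le_mul a3 a2 (by linarith) (by positivity)
      have e2 : 2 * ((p : ℝ) * m) ≤ 2 * (5 * m * m) := by
        have := mul_le_mul_of_nonneg_right hp5 hm0.le
        linarith
      have e3 : 8000000 * (25 * (m : ℝ) ^ 2) * (3 * L) = (75000000 * L) * (8 * m ^ 2) := by ring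
      have e4 : (75000000 * L) * (8 * (m : ℝ) ^ 2) ≤ (75000000 * L) * t :=
        mul_le_mul_of_nonneg_left htm (by positivity)
      have e5 : 2 * (5 * (m : ℝ) * m) ≤ 2 * t := by nlinarith
      linarith
    have h1 : msg A = (1 / t) * ∑ x ∈ gaps (A + A), ((x.2 : ℝ) - (x.1 : ℝ)) ^ 2 := rfl
    rw [h1, hcard, ← hL]
    have h2 : (1 / t) * ∑ x ∈ gaps (A + A), ((x.2 : ℝ) - (x.1 : ℝ)) ^ 2 ≤
        (1 / t) * ((507 + 1014 * (75000000 * L + 2)) * t) := by
      refine mul_le_mul_of_nonneg_left ?_ (by positivity)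
      refine hg'.trans ?_
      have := mul_le_mul_of_nonneg_left hW (show (0 : ℝ) ≤ 1014 by norm_num)
      linarith
    have h3 : (1 / t) * ((507 + 1014 * (75000000 * L + 2)) * t) =
        507 + 1014 * (75000000 * L + 2) := by
      field_simp
    rw [h3] at h2
    refine h2.trans ?_
    linarith

end Pool.Agent.H86.E153
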