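import Pool.Agent.H86.E153.Prob

/-!
# MP_2ef8e1_nt: the number of pairs of translations with an empty window
-/

set_option autoImplicit false

open Finset

namespace Pool.Agent.H86.E153

variable {m p : ℕ} [NeZero (p * m)] {B : Fin 4 → Finset (ZMod (p * m))}

open Classical in
/-- the number of pairs of translations with an empty window -/
noncomputable def cnt {n : ℕ} [NeZero n] (B : Fin 4 → Finset (ZMod n)) (i j : Fin 4) (Z h : ℕ) : ℕ :=
  ((univ : Finset (ZMod n × ZMod n)).filter fun q => Emp (B i) (B j) q.1 q.2 Z h).card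

theorem pair_count (hm : 1 ≤ m) (hp : p = 4 * m + 1) (hB : DF m B) (i j : Fin 4) {Z h : ℕ}
    (hZ : Z + h < p * m) (hh : 1 ≤ h) :
    (cnt B i j Z h : ℝ) ≤ ((p : ℝ) * m) ^ 2 * (200 * p * (p + h) / (h * (Z + 1))) := by
  classical
  have hpr : (4 * (m : ℝ) + 1) = p := by rw [hp]; push_cast; ring
  have hm1 : (1 : ℝ) ≤ m := by exact_mod_cast hm
  have hp0 : (0 : ℝ) < p := by rw [← hpr]; positivity
  have hp5 : (p : ℝ) ≤ 5 * m := by rw [← hpr]; linarith
  have hh1 : (1 : ℝ) ≤ h := by exact_mod_cast hh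
  have hz1 : (1 : ℝ) ≤ (Z : ℝ) + 1 := by
    have : (0 : ℝ) ≤ Z := Nat.cast_nonneg _
    linarith
  have hzn : (Z : ℝ) + 1 ≤ p * m := by
    have : Z + 1 ≤ p * m := by omega
    exact_mod_cast this
  -- the count is the sum over the first translation
  have h1 : (cnt B i j Z h : ℝ) = ∑ g : ZMod (p * m),
      (((univ.filter fun g' => Emp (B i) (B j) g g' Z h).card : ℕ) : ℝ) := by
    unfold cnt
    rw [Finset.card_filter]
    push_cast
    rw [Fintype.sum_prod_type]
    refine Finset.sum_congr rfl fun g _ => ?_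
    rw [Finset.card_filter]
    push_cast
    rfl
  set T := univ.filter fun g => Mf (B i) g Z * (2 * p) < Z + 1 with hT
  set F : ZMod (p * m) → ℝ := fun g => 4 * m * p ^ 2 / h * (2 * p / (Z + 1) +
    4 * p ^ 2 * Cf (B i) g Z h / (Z + 1) ^ 2) + p with hF
  have hF0 : ∀ g, 0 ≤ F g := by
    intro g
    have := Cf_nonneg (B i) g Z h
    simp only [hF]
    positivity
  have h2 : ∀ g : ZMod (p * m), (((univ.filter fun g' => Emp (B i) (B j) g g' Z h).card : ℕ) : ℝ)
      ≤ (if g ∈ T then (p : ℝ) * m else 0) + F g := by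
    intro g
    by_cases hg : g ∈ T
    · rw [if_pos hg]
      have h3 : ((univ.filter fun g' => Emp (B i) (B j) g g' Z h).card : ℕ) ≤ p * m := by
        refine (Finset.card_filter_le _ _).trans (le_of_eq ?_)
        rw [Finset.card_univ, ZMod.card]
      have h4 : (((univ.filter fun g' => Emp (B i) (B j) g g' Z h).card : ℕ) : ℝ) ≤ p * m := by
        exact_mod_cast h3
      linarith [hF0 g]
    · rw [if_neg hg, zero_add]
      rw [hT, mem_filter, not_and, not_lt] at hg
      have hg1 := hg (mem_univ _)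
      have hM0 : 0 < Mf (B i) g Z := by
        by_contra h5
        have h6 : Mf (B i) g Z * (2 * p) ≤ 0 := mul_nonpos_of_nonpos_of_nonneg (not_lt.1 h5)
          (by positivity)
        linarith
      refine (emp_count hm hp hB i j hZ hh g hM0).trans ?_
      have h5 : 1 / Mf (B i) g Z ≤ 2 * p / (Z + 1) := by
        rw [div_le_div_iff₀ hM0 (by linarith)]
        linarith
      have h6 : Cf (B i) g Z h / Mf (B i) g Z ^ 2 ≤ 4 * p ^ 2 * Cf (B i) g Z h / (Z + 1) ^ 2 := by
        have h7 : Cf (B i) g Z h / Mf (B i) g Z ^ 2 = Cf (B i) g Z h * (1 / Mf (B i) g Z) ^ 2 := by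
          field_simp
        have h8 : 4 * p ^ 2 * Cf (B i) g Z h / (Z + 1) ^ 2 =
            Cf (B i) g Z h * (2 * p / ((Z : ℝ) + 1)) ^ 2 := by
          field_simp
          ring
        rw [h7, h8]
        refine mul_le_mul_of_nonneg_left ?_ (Cf_nonneg _ _ _ _)
        exact pow_le_pow_left₀ (by positivity) h5 2
      simp only [hF]
      have h9 : (0 : ℝ) ≤ 4 * m * p ^ 2 / h := by positivity
      have := mul_le_mul_of_nonneg_left (add_le_add h5 h6) h9
      linarith
  have h3 : (cnt B i j Z h : ℝ) ≤ T.card * (p * m) + ∑ g, F g := by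
    rw [h1]
    refine (Finset.sum_le_sum fun g _ => h2 g).trans (le_of_eq ?_)
    rw [Finset.sum_add_distrib]
    congr 1
    rw [← Finset.sum_filter, Finset.filter_mem_eq_inter, Finset.univ_inter, Finset.sum_const,
      nsmul_eq_mul]
  have h4 : ∑ g, F g ≤ p * m * (8 * m * p ^ 3 / (h * (Z + 1)) + p) +
      32 * m * p ^ 4 / (Z + 1) := by
    have h5 : ∑ g, F g = p * m * (8 * m * p ^ 3 / (h * (Z + 1)) + p) +
        16 * m * p ^ 4 / (h * (Z + 1) ^ 2) * ∑ g, Cf (B i) g Z h := by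
      have h6 : ∀ g, F g = (8 * m * p ^ 3 / (h * (Z + 1)) + p) +
          16 * m * p ^ 4 / (h * (Z + 1) ^ 2) * Cf (B i) g Z h := by
        intro g
        simp only [hF]
        field_simp
        ring
      simp_rw [h6]
      rw [Finset.sum_add_distrib, ← Finset.mul_sum, Finset.sum_const, Finset.card_univ, ZMod.card,
        nsmul_eq_mul]
      push_cast
      ring
    rw [h5]
    have h7 := mul_le_mul_of_nonneg_left (sum_Cf hB i Z h)
      (show (0 : ℝ) ≤ 16 * m * p ^ 4 / (h * (Z + 1) ^ 2) by positivity)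
    have h8 : 16 * m * p ^ 4 / (h * ((Z : ℝ) + 1) ^ 2) * (2 * h * (Z + 1)) =
        32 * m * p ^ 4 / (Z + 1) := by
      field_simp
      ring
    linarith
  have hbad := bad_count hm hp hB i (Z := Z) (by omega)
  rw [← hT] at hbad
  have h5 := mul_le_mul_of_nonneg_right hbad (show (0 : ℝ) ≤ p * m by positivity)
  have h6 : (cnt B i j Z h : ℝ) ≤ (16 * m * p ^ 2 / (Z + 1) + 4 * p) * (p * m) +
      (p * m * (8 * m * p ^ 3 / (h * (Z + 1)) + p) + 32 * m * p ^ 4 / (Z + 1)) := by linarith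
  refine h6.trans ?_
  -- multiply by `h (Z + 1)`
  have hz0 : (0 : ℝ) < (Z : ℝ) + 1 := by linarith
  have hh0 : (0 : ℝ) < (h : ℝ) := by linarith
  have e1 : (16 * m * p ^ 2 / ((Z : ℝ) + 1) + 4 * p) * (p * m) +
      (p * m * (8 * m * p ^ 3 / (h * (Z + 1)) + p) + 32 * m * p ^ 4 / (Z + 1)) =
      (16 * m ^ 2 * p ^ 3 * h + 5 * p ^ 2 * m * (h * (Z + 1)) + 8 * m ^ 2 * p ^ 4 +
        32 * m * p ^ 4 * h) / (h * (Z + 1)) := by
    field_simp
    ring
  have e2 : ((p : ℝ) * m) ^ 2 * (200 * p * (p + h) / (h * (Z + 1))) =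
      (200 * p ^ 3 * m ^ 2 * (p + h)) / (h * (Z + 1)) := by
    field_simp
  rw [e1, e2]
  refine div_le_div_of_nonneg_right ?_ (by positivity)
  have t1 : 5 * p ^ 2 * m * (h * ((Z : ℝ) + 1)) ≤ 5 * p ^ 2 * m * (h * (p * m)) := by
    refine mul_le_mul_of_nonneg_left ?_ (by positivity)
    exact mul_le_mul_of_nonneg_left hzn hh0.le
  have t2 : 32 * m * (p : ℝ) ^ 4 * h ≤ 32 * m * (p ^ 3 * (5 * m)) * h := by
    have : (p : ℝ) ^ 4 ≤ p ^ 3 * (5 * m) := by
      rw [pow_succ]
      exact mul_le_mul_of_nonneg_left hp5 (by positivity)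
    have h7 : 32 * (m : ℝ) * p ^ 4 ≤ 32 * m * (p ^ 3 * (5 * m)) :=
      mul_le_mul_of_nonneg_left this (by positivity)
    exact mul_le_mul_of_nonneg_right h7 hh0.le
  have t3 : (0 : ℝ) ≤ p ^ 3 * m ^ 2 * h := by positivity
  have t4 : (0 : ℝ) ≤ p ^ 4 * m ^ 2 := by positivity
  nlinarith

end Pool.Agent.H86.E153
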