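import Pool.Agent.H86.E153.Var

/-!
# MP_2ef8e1_nt: the number of translations with an empty window
-/

set_option autoImplicit false

open Finset

namespace Pool.Agent.H86.E153

/-- no sum of the two translated sets in the window `(Z, Z + h]` -/
def Emp {n : ℕ} (S S' : Finset (ZMod n)) (g g' : ZMod n) (Z h : ℕ) : Prop :=
  ∀ b ∈ S, ∀ b' ∈ S', ¬ (Z < (b + g).val + (b' + g').val ∧ (b + g).val + (b' + g').val ≤ Z + h)

theorem sum_val {n : ℕ} [NeZero n] (F : ℕ → ℝ) : ∑ y : ZMod n, F y.val = ∑ k ∈ range n, F k := by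
  refine Finset.sum_nbij' (fun y : ZMod n => y.val) (fun k => (k : ZMod n)) ?_ ?_ ?_ ?_ ?_
  · intro y _
    exact mem_range.2 (ZMod.val_lt y)
  · intro k _
    exact mem_univ _
  · intro y _
    exact ZMod.natCast_zmod_val y
  · intro k hk
    exact ZMod.val_cast_of_lt (mem_range.1 hk)
  · intro y _
    rfl

/-- the number of elements up to `Z` -/
noncomputable def Mf {n : ℕ} (S : Finset (ZMod n)) (g : ZMod n) (Z : ℕ) : ℝ :=
  ∑ b ∈ S, if (b + g).val ≤ Z then 1 else 0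

/-- the number of close pairs up to `Z` -/
noncomputable def Cf {n : ℕ} (S : Finset (ZMod n)) (g : ZMod n) (Z h : ℕ) : ℝ :=
  ∑ x ∈ S.offDiag, if (x.1 + g).val ≤ Z ∧ (x.2 + g).val ≤ Z ∧ (x.1 + g).val < (x.2 + g).val + h ∧
    (x.2 + g).val < (x.1 + g).val + h then 1 else 0

theorem Mf_nonneg {n : ℕ} (S : Finset (ZMod n)) (g : ZMod n) (Z : ℕ) : 0 ≤ Mf S g Z :=
  Finset.sum_nonneg fun b _ => by split_ifs <;> norm_num

theorem Cf_nonneg {n : ℕ} (S : Finset (ZMod n)) (g : ZMod n) (Z h : ℕ) : 0 ≤ Cf S g Z h :=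
  Finset.sum_nonneg fun b _ => by split_ifs <;> norm_num

theorem sum_le_val {n : ℕ} [NeZero n] {Z : ℕ} (hZ : Z < n) :
    ∑ y : ZMod n, (if y.val ≤ Z then (1 : ℝ) else 0) = Z + 1 := by
  rw [sum_val (fun k => if k ≤ Z then (1 : ℝ) else 0), ← Finset.sum_filter, Finset.sum_const,
    nsmul_eq_mul, mul_one]
  have : (range n).filter (fun k => k ≤ Z) = range (Z + 1) := by
    ext k
    simp only [mem_filter, mem_range]
    omega
  rw [this, card_range]
  push_cast
  ring

/-- a window of length `h` -/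
theorem sum_win {n : ℕ} [NeZero n] {Z h a : ℕ} (hZ : Z + h < n) (ha : a ≤ Z) :
    ∑ y : ZMod n, (if Z < a + y.val ∧ a + y.val ≤ Z + h then (1 : ℝ) else 0) = h := by
  rw [sum_val (fun k => if Z < a + k ∧ a + k ≤ Z + h then (1 : ℝ) else 0), ← Finset.sum_filter,
    Finset.sum_const, nsmul_eq_mul, mul_one]
  have : (range n).filter (fun k => Z < a + k ∧ a + k ≤ Z + h) = Ioc (Z - a) (Z + h - a) := by
    ext k
    simp only [mem_filter, mem_range, mem_Ioc]
    omega
  rw [this, Nat.card_Ioc]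
  congr 1
  omega

theorem sum_Cf {n m : ℕ} [NeZero n] {B : Fin 4 → Finset (ZMod n)} (hB : DF m B) (i : Fin 4)
    (Z h : ℕ) : ∑ g, Cf (B i) g Z h ≤ 2 * h * (Z + 1) := by
  classical
  unfold Cf
  have h1 : ∑ g : ZMod n, ∑ x ∈ (B i).offDiag, (if (x.1 + g).val ≤ Z ∧ (x.2 + g).val ≤ Z ∧
      (x.1 + g).val < (x.2 + g).val + h ∧ (x.2 + g).val < (x.1 + g).val + h then (1 : ℝ) else 0) =
      (((univ : Finset (ZMod n)) ×ˢ (B i).offDiag).filter (fun q => (q.2.1 + q.1).val ≤ Z ∧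
        (q.2.2 + q.1).val ≤ Z ∧ (q.2.1 + q.1).val < (q.2.2 + q.1).val + h ∧
        (q.2.2 + q.1).val < (q.2.1 + q.1).val + h)).card := by
    rw [← Finset.sum_product', ← Finset.sum_filter, Finset.sum_const, nsmul_eq_mul, mul_one]
  rw [h1]
  have h2 : (((univ : Finset (ZMod n)) ×ˢ (B i).offDiag).filter (fun q => (q.2.1 + q.1).val ≤ Z ∧
        (q.2.2 + q.1).val ≤ Z ∧ (q.2.1 + q.1).val < (q.2.2 + q.1).val + h ∧
        (q.2.2 + q.1).val < (q.2.1 + q.1).val + h)).card ≤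
      ((range (Z + 1)).sigma fun a => Ico (a + 1 - h) (a + h)).card := by
    refine Finset.card_le_card_of_injOn
      (fun q => (⟨(q.2.1 + q.1).val, (q.2.2 + q.1).val⟩ : Σ _ : ℕ, ℕ)) ?_ ?_
    · intro q hq
      rw [mem_coe, mem_filter] at hq
      rw [mem_coe, mem_sigma, mem_range, mem_Ico]
      dsimp only
      obtain ⟨-, h3, h4, h5, h6⟩ := hq
      omega
    · rintro ⟨g, x, x'⟩ hq ⟨g', y, y'⟩ hq' he
      rw [mem_coe, mem_filter, mem_product] at hq hq'
      simp only [Sigma.mk.injEq, heq_eq_eq] at he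
      obtain ⟨⟨-, hx⟩, -⟩ := hq
      obtain ⟨⟨-, hy⟩, -⟩ := hq'
      dsimp only at hx hy
      rw [mem_offDiag] at hx hy
      have e1 := ZMod.val_injective n he.1
      have e2 := ZMod.val_injective n he.2
      obtain ⟨-, e3, e4⟩ := hB.dif i i x hx.1 x' hx.2.1 y hy.1 y' hy.2.1 hx.2.2
        (by linear_combination e1 - e2)
      subst e3 e4
      rw [add_left_cancel e1]
  have h3 : (((range (Z + 1)).sigma fun a => Ico (a + 1 - h) (a + h)).card : ℝ) ≤
      2 * h * (Z + 1) := by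
    rw [card_sigma]
    push_cast
    have h4 : ∀ a ∈ range (Z + 1), (((Ico (a + 1 - h) (a + h)).card : ℕ) : ℝ) ≤ 2 * h := by
      intro a _
      rw [Nat.card_Ico]
      have : a + h - (a + 1 - h) ≤ 2 * h := by omega
      exact_mod_cast this
    refine (Finset.sum_le_sum h4).trans (le_of_eq ?_)
    rw [Finset.sum_const, card_range, nsmul_eq_mul]
    push_cast
    ring
  exact (by exact_mod_cast h2 : _ ≤ (((range (Z + 1)).sigma
    fun a => Ico (a + 1 - h) (a + h)).card : ℝ)).trans h3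

section

variable {m p : ℕ} [NeZero (p * m)] {B : Fin 4 → Finset (ZMod (p * m))}

theorem bad_count (hm : 1 ≤ m) (hp : p = 4 * m + 1) (hB : DF m B) (i : Fin 4) {Z : ℕ}
    (hZ : Z < p * m) :
    (((univ.filter fun g => Mf (B i) g Z * (2 * p) < Z + 1).card : ℕ) : ℝ) ≤
      16 * m * p ^ 2 / (Z + 1) + 4 * p := by
  have hcard : Fintype.card (ZMod (p * m)) = (4 * m + 1) * m := by rw [ZMod.card, hp]
  have hpr : (4 * (m : ℝ) + 1) = p := by rw [hp]; push_cast; ring
  have hp0 : (0 : ℝ) < p := by rw [← hpr]; positivity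
  have hz0 : (0 : ℝ) < (Z : ℝ) + 1 := by positivity
  have hv := var hm hB hcard (fun y : ZMod (p * m) => if y.val ≤ Z then (1 : ℝ) else 0)
    (fun y => by split_ifs <;> norm_num) i
  have hsq : ∀ y : ZMod (p * m), (if y.val ≤ Z then (1 : ℝ) else 0) ^ 2 =
      if y.val ≤ Z then (1 : ℝ) else 0 := by
    intro y
    split_ifs <;> norm_num
  simp_rw [hsq] at hv
  rw [sum_le_val hZ, hpr] at hv
  set T := univ.filter fun g => Mf (B i) g Z * (2 * p) < Z + 1 with hT
  have h1 : (T.card : ℝ) * (((Z : ℝ) + 1) / (2 * p)) ^ 2 ≤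
      ∑ g, (∑ b ∈ B i, (if (b + g).val ≤ Z then (1 : ℝ) else 0) - ((Z : ℝ) + 1) / p) ^ 2 := by
    calc (T.card : ℝ) * (((Z : ℝ) + 1) / (2 * p)) ^ 2 = ∑ _g ∈ T, (((Z : ℝ) + 1) / (2 * p)) ^ 2 := by
          rw [Finset.sum_const, nsmul_eq_mul]
      _ ≤ ∑ g ∈ T, (∑ b ∈ B i, (if (b + g).val ≤ Z then (1 : ℝ) else 0) -
            ((Z : ℝ) + 1) / p) ^ 2 := by
          refine Finset.sum_le_sum fun g hg => ?_
          rw [hT, mem_filter] at hg
          have hg2 := hg.2
          unfold Mf at hg2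
          have h2 : ∑ b ∈ B i, (if (b + g).val ≤ Z then (1 : ℝ) else 0) <
              ((Z : ℝ) + 1) / (2 * p) := by
            rw [lt_div_iff₀ (by positivity)]
            exact hg2
          have h3 : ((Z : ℝ) + 1) / p = 2 * (((Z : ℝ) + 1) / (2 * p)) := by field_simp
          rw [h3]
          have h4 : 0 < ((Z : ℝ) + 1) / (2 * p) := by positivity
          nlinarith
      _ ≤ _ := Finset.sum_le_sum_of_subset_of_nonneg (subset_univ _) fun _ _ _ => sq_nonneg _
  have h2 := h1.trans hv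
  have h3 : (T.card : ℝ) * (((Z : ℝ) + 1) / (2 * p)) ^ 2 * (4 * p ^ 2 / ((Z : ℝ) + 1) ^ 2) ≤
      (4 * m * ((Z : ℝ) + 1) + ((Z : ℝ) + 1) ^ 2 / p) * (4 * p ^ 2 / ((Z : ℝ) + 1) ^ 2) :=
    mul_le_mul_of_nonneg_right h2 (by positivity)
  have e1 : (T.card : ℝ) * (((Z : ℝ) + 1) / (2 * p)) ^ 2 * (4 * p ^ 2 / ((Z : ℝ) + 1) ^ 2) =
      T.card := by
    field_simp
    norm_num
  have e2 : (4 * m * ((Z : ℝ) + 1) + ((Z : ℝ) + 1) ^ 2 / p) * (4 * p ^ 2 / ((Z : ℝ) + 1) ^ 2) =
      16 * m * p ^ 2 / (Z + 1) + 4 * p := by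
    field_simp
    ring
  rw [e1, e2] at h3
  exact h3

theorem emp_count (hm : 1 ≤ m) (hp : p = 4 * m + 1) (hB : DF m B) (i j : Fin 4) {Z h : ℕ}
    (hZ : Z + h < p * m) (hh : 1 ≤ h) (g : ZMod (p * m)) (hM : 0 < Mf (B i) g Z)
    [DecidablePred fun g' => Emp (B i) (B j) g g' Z h] :
    (((univ.filter fun g' => Emp (B i) (B j) g g' Z h).card : ℕ) : ℝ) ≤
      4 * m * p ^ 2 / h * (1 / Mf (B i) g Z + Cf (B i) g Z h / Mf (B i) g Z ^ 2) + p := by
  classical
  have hcard : Fintype.card (ZMod (p * m)) = (4 * m + 1) * m := by rw [ZMod.card, hp]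
  have hpr : (4 * (m : ℝ) + 1) = p := by rw [hp]; push_cast; ring
  have hp0 : (0 : ℝ) < p := by rw [← hpr]; positivity
  have hh0 : (0 : ℝ) < h := by exact_mod_cast hh
  set M := Mf (B i) g Z with hMdef
  set C := Cf (B i) g Z h with hCdef
  set w : ZMod (p * m) → ZMod (p * m) → ℝ := fun b y =>
    if (b + g).val ≤ Z ∧ Z < (b + g).val + y.val ∧ (b + g).val + y.val ≤ Z + h then 1 else 0
    with hw
  have hw0 : ∀ b y, 0 ≤ w b y := fun b y => by simp only [hw]; split_ifs <;> norm_num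
  have hw1 : ∀ b y, w b y ≤ 1 := fun b y => by simp only [hw]; split_ifs <;> norm_num
  have hwsum : ∀ b, ∑ y, w b y = if (b + g).val ≤ Z then (h : ℝ) else 0 := by
    intro b
    by_cases hb : (b + g).val ≤ Z
    · rw [if_pos hb, ← sum_win hZ hb]
      refine Finset.sum_congr rfl fun y _ => ?_
      simp only [hw, hb, true_and]
    · rw [if_neg hb]
      refine Finset.sum_eq_zero fun y _ => ?_
      simp only [hw, hb, false_and, if_false]
  have hs1 : ∑ y, ∑ b ∈ B i, w b y = h * M := by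
    rw [Finset.sum_comm]
    simp_rw [hwsum]
    rw [hMdef, Mf, Finset.mul_sum]
    refine Finset.sum_congr rfl fun b _ => ?_
    split_ifs <;> ring
  have hs2 : ∑ y, (∑ b ∈ B i, w b y) ^ 2 ≤ h * (M + C) := by
    have h1 : ∀ y, (∑ b ∈ B i, w b y) ^ 2 = ∑ x ∈ B i ×ˢ B i, w x.1 y * w x.2 y := by
      intro y
      rw [sq, Finset.sum_mul_sum, Finset.sum_product]
    simp_rw [h1]
    rw [Finset.sum_comm, ← Finset.diag_union_offDiag,
      Finset.sum_union (Finset.disjoint_diag_offDiag _), Finset.sum_diag, mul_add]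
    refine add_le_add ?_ ?_
    · dsimp only
      have h2 : ∀ b, ∑ y, w b y * w b y = if (b + g).val ≤ Z then (h : ℝ) else 0 := by
        intro b
        rw [← hwsum]
        refine Finset.sum_congr rfl fun y _ => ?_
        simp only [hw]
        split_ifs <;> ring
      simp_rw [h2]
      rw [hMdef, Mf, Finset.mul_sum]
      refine Finset.sum_le_sum fun b _ => ?_
      split_ifs <;> simp
    · rw [hCdef, Cf, Finset.mul_sum]
      refine Finset.sum_le_sum fun x _ => ?_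
      by_cases hx : (x.1 + g).val ≤ Z ∧ (x.2 + g).val ≤ Z ∧ (x.1 + g).val < (x.2 + g).val + h ∧
          (x.2 + g).val < (x.1 + g).val + h
      · rw [if_pos hx, mul_one]
        calc ∑ y, w x.1 y * w x.2 y ≤ ∑ y, w x.1 y := by
              refine Finset.sum_le_sum fun y _ => ?_
              exact mul_le_of_le_one_right (hw0 _ _) (hw1 _ _)
          _ = h := by rw [hwsum, if_pos hx.1]
      · rw [if_neg hx, mul_zero]
        refine le_of_eq (Finset.sum_eq_zero fun y _ => ?_)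
        simp only [hw]
        by_cases h3 : (x.1 + g).val ≤ Z ∧ Z < (x.1 + g).val + y.val ∧
            (x.1 + g).val + y.val ≤ Z + h
        · rw [if_pos h3]
          by_cases h4 : (x.2 + g).val ≤ Z ∧ Z < (x.2 + g).val + y.val ∧
              (x.2 + g).val + y.val ≤ Z + h
          · exact absurd ⟨h3.1, h4.1, by omega, by omega⟩ hx
          · rw [if_neg h4, mul_zero]
        · rw [if_neg h3, zero_mul]
  have hv := var hm hB hcard (fun y : ZMod (p * m) => ∑ b ∈ B i, w b y)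
    (fun y => Finset.sum_nonneg fun b _ => hw0 b y) j
  rw [hs1, hpr] at hv
  set T := univ.filter fun g' => Emp (B i) (B j) g g' Z h with hT
  have h1 : (T.card : ℝ) * (h * M / p) ^ 2 ≤ ∑ g' : ZMod (p * m),
      (∑ b' ∈ B j, (∑ b ∈ B i, w b (b' + g')) - h * M / p) ^ 2 := by
    calc (T.card : ℝ) * (h * M / p) ^ 2 = ∑ _g ∈ T, (h * M / p) ^ 2 := by
          rw [Finset.sum_const, nsmul_eq_mul]
      _ ≤ ∑ g' ∈ T, (∑ b' ∈ B j, (∑ b ∈ B i, w b (b' + g')) - h * M / p) ^ 2 := by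
          refine Finset.sum_le_sum fun g' hg' => ?_
          rw [hT, mem_filter] at hg'
          have h2 : ∑ b' ∈ B j, (∑ b ∈ B i, w b (b' + g')) = 0 := by
            refine Finset.sum_eq_zero fun b' hb' => Finset.sum_eq_zero fun b hb => ?_
            simp only [hw]
            rw [if_neg]
            rintro ⟨-, h3, h4⟩
            exact hg'.2 b hb b' hb' ⟨h3, h4⟩
          rw [h2]
          exact le_of_eq (by ring)
      _ ≤ _ := Finset.sum_le_sum_of_subset_of_nonneg (subset_univ _) fun _ _ _ => sq_nonneg _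
  have h2 : (T.card : ℝ) * (h * M / p) ^ 2 ≤ 4 * m * (h * (M + C)) + (h * M) ^ 2 / p :=
    (h1.trans hv).trans (by
      have : (4 : ℝ) * m * ∑ y, (∑ b ∈ B i, w b y) ^ 2 ≤ 4 * m * (h * (M + C)) :=
        mul_le_mul_of_nonneg_left hs2 (by positivity)
      linarith)
  have h3 : (T.card : ℝ) * (h * M / p) ^ 2 * (p ^ 2 / (h * M) ^ 2) ≤
      (4 * m * (h * (M + C)) + (h * M) ^ 2 / p) * (p ^ 2 / (h * M) ^ 2) :=
    mul_le_mul_of_nonneg_right h2 (by positivity)
  have e1 : (T.card : ℝ) * (h * M / p) ^ 2 * (p ^ 2 / (h * M) ^ 2) = T.card := by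
    field_simp
  have e2 : (4 * m * (h * (M + C)) + (h * M) ^ 2 / p) * (p ^ 2 / (h * M) ^ 2) =
      4 * m * p ^ 2 / h * (1 / M + C / M ^ 2) + p := by
    field_simp
  rw [e1, e2] at h3
  exact h3

end

end Pool.Agent.H86.E153
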