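import Mathlib

/-!
# MP_2ef8e1_nt: difference families with four blocks, the variance bound
-/

set_option autoImplicit false
set_option linter.unusedSectionVars false

open Finset

namespace Pool.Agent.H86.E153

variable {G : Type} [AddCommGroup G] [Fintype G] [DecidableEq G]

/-- four sets with `m` elements such that all differences are different -/
structure DF (m : ℕ) (B : Fin 4 → Finset G) : Prop where
  card : ∀ i, (B i).card = m
  dif : ∀ i j, ∀ x ∈ B i, ∀ x' ∈ B i, ∀ y ∈ B j, ∀ y' ∈ B j, x ≠ x' → x - x' = y - y' →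
    i = j ∧ x = y ∧ x' = y'

/-- the correlation -/
def cor (φ : G → ℝ) (d : G) : ℝ := ∑ y, φ y * φ (y + d)

theorem sum_cor (φ : G → ℝ) : ∑ d, cor φ d = (∑ y, φ y) ^ 2 := by
  unfold cor
  rw [Finset.sum_comm, sq, Finset.sum_mul]
  refine Finset.sum_congr rfl fun y _ => ?_
  rw [← Finset.mul_sum]
  congr 1
  exact Fintype.sum_equiv (Equiv.addLeft y) _ _ fun d => rfl

theorem sum_sq_eq (φ : G → ℝ) (S : Finset G) :
    ∑ g, (∑ b ∈ S, φ (b + g)) ^ 2 = ∑ x ∈ S ×ˢ S, cor φ (x.2 - x.1) := by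
  rw [Finset.sum_product]
  have h1 : ∀ g, (∑ b ∈ S, φ (b + g)) ^ 2 = ∑ b ∈ S, ∑ b' ∈ S, φ (b + g) * φ (b' + g) := by
    intro g
    rw [sq, Finset.sum_mul_sum]
  simp_rw [h1]
  rw [Finset.sum_comm]
  refine Finset.sum_congr rfl fun b _ => ?_
  rw [Finset.sum_comm]
  refine Finset.sum_congr rfl fun b' _ => ?_
  unfold cor
  refine Fintype.sum_equiv (Equiv.addLeft b) _ _ fun g => ?_
  change φ (b + g) * φ (b' + g) = φ (b + g) * φ (b + g + (b' - b))
  rw [show b + g + (b' - b) = b' + g by abel]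

theorem sum_all {m : ℕ} {B : Fin 4 → Finset G} (hB : DF m B) (φ : G → ℝ) (h0 : ∀ y, 0 ≤ φ y) :
    ∑ i, ∑ g, (∑ b ∈ B i, φ (b + g)) ^ 2 ≤ 4 * m * ∑ y, φ y ^ 2 + (∑ y, φ y) ^ 2 := by
  have hc0 : ∀ d, 0 ≤ cor φ d := fun d => Finset.sum_nonneg fun y _ => mul_nonneg (h0 _) (h0 _)
  have h1 : ∀ i, ∑ g, (∑ b ∈ B i, φ (b + g)) ^ 2 = m * ∑ y, φ y ^ 2 +
      ∑ x ∈ (B i).offDiag, cor φ (x.2 - x.1) := by
    intro i
    rw [sum_sq_eq, ← Finset.diag_union_offDiag, Finset.sum_union (Finset.disjoint_diag_offDiag _),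
      Finset.sum_diag]
    congr 1
    simp only [sub_self]
    rw [Finset.sum_const, hB.card, nsmul_eq_mul]
    congr 1
    unfold cor
    refine Finset.sum_congr rfl fun y _ => ?_
    rw [add_zero, sq]
  simp_rw [h1]
  rw [Finset.sum_add_distrib, Finset.sum_const, Finset.card_univ, Fintype.card_fin, nsmul_eq_mul]
  push_cast
  rw [mul_assoc]
  refine add_le_add_right ?_ _
  rw [← sum_cor, Finset.sum_sigma']
  have hinj : Set.InjOn (fun x : Σ _ : Fin 4, G × G => x.2.2 - x.2.1)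
      (univ.sigma fun i => (B i).offDiag : Finset (Σ _ : Fin 4, G × G)) := by
    rintro ⟨i, x, x'⟩ hx ⟨j, y, y'⟩ hy h
    simp only [coe_sigma, coe_univ, Set.mem_sigma_iff, Set.mem_univ, true_and, mem_coe,
      mem_offDiag] at hx hy
    obtain ⟨h2, h3, h4⟩ := hB.dif i j x' hx.2.1 x hx.1 y' hy.2.1 y hy.1 (Ne.symm hx.2.2) h
    subst h2 h3 h4
    rfl
  rw [← Finset.sum_image (f := cor φ) hinj]
  exact Finset.sum_le_univ_sum_of_nonneg hc0

theorem sum_trans (φ : G → ℝ) (S : Finset G) :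
    ∑ g, ∑ b ∈ S, φ (b + g) = S.card * ∑ y, φ y := by
  rw [Finset.sum_comm]
  have h1 : ∀ b ∈ S, ∑ g, φ (b + g) = ∑ y, φ y := fun b _ =>
    Fintype.sum_equiv (Equiv.addLeft b) _ _ fun g => rfl
  rw [Finset.sum_congr rfl h1, Finset.sum_const, nsmul_eq_mul]

/-- the variance bound -/
theorem var {m : ℕ} (hm : 1 ≤ m) {B : Fin 4 → Finset G} (hB : DF m B)
    (hG : Fintype.card G = (4 * m + 1) * m) (φ : G → ℝ) (h0 : ∀ y, 0 ≤ φ y) (i : Fin 4) :
    ∑ g, (∑ b ∈ B i, φ (b + g) - (∑ y, φ y) / (4 * m + 1)) ^ 2 ≤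
      4 * m * ∑ y, φ y ^ 2 + (∑ y, φ y) ^ 2 / (4 * m + 1) := by
  have hm' : (1 : ℝ) ≤ m := by exact_mod_cast hm
  have hp : (0 : ℝ) < 4 * m + 1 := by positivity
  set Q : Fin 4 → ℝ := fun i => ∑ g, (∑ b ∈ B i, φ (b + g)) ^ 2 with hQ
  set s := ∑ y, φ y with hs
  have hn : ((Fintype.card G : ℕ) : ℝ) = (4 * m + 1) * m := by rw [hG]; push_cast; ring
  have hlow : ∀ j, (m : ℝ) / (4 * m + 1) * s ^ 2 ≤ Q j := by
    intro j
    have h1 := sq_sum_le_card_mul_sum_sq (s := (univ : Finset G))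
      (f := fun g => ∑ b ∈ B j, φ (b + g))
    rw [sum_trans, hB.card, Finset.card_univ, hn] at h1
    have h2 : (m : ℝ) * (m / (4 * m + 1) * s ^ 2) * (4 * m + 1) ≤ m * Q j * (4 * m + 1) := by
      have e1 : (m : ℝ) * (m / (4 * m + 1) * s ^ 2) * (4 * m + 1) = (m * s) ^ 2 := by
        field_simp
      rw [e1]
      calc ((m : ℝ) * s) ^ 2 ≤ _ := h1
        _ = m * Q j * (4 * m + 1) := by rw [hQ]; ring
    have h3 := le_of_mul_le_mul_right h2 hp
    exact le_of_mul_le_mul_left h3 (by linarith)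
  have hsum := sum_all hB φ h0
  have hi : Q i ≤ 4 * m * ∑ y, φ y ^ 2 + s ^ 2 - 3 * ((m : ℝ) / (4 * m + 1) * s ^ 2) := by
    have h4 : ∑ j, Q j = Q i + ∑ j ∈ univ.erase i, Q j := by
      rw [Finset.add_sum_erase _ _ (mem_univ i)]
    have h5 : (3 : ℝ) * ((m : ℝ) / (4 * m + 1) * s ^ 2) ≤ ∑ j ∈ univ.erase i, Q j := by
      have h6 := Finset.card_nsmul_le_sum (univ.erase i) Q _ fun j _ => hlow j
      rw [Finset.card_erase_of_mem (mem_univ i), Finset.card_univ, Fintype.card_fin,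
        nsmul_eq_mul] at h6
      push_cast at h6
      linarith
    have h7 : ∑ j, Q j ≤ 4 * m * ∑ y, φ y ^ 2 + s ^ 2 := hsum
    linarith
  have hexp : ∑ g, (∑ b ∈ B i, φ (b + g) - s / (4 * m + 1)) ^ 2 =
      Q i - (m : ℝ) / (4 * m + 1) * s ^ 2 := by
    have h8 : ∀ g, (∑ b ∈ B i, φ (b + g) - s / (4 * m + 1)) ^ 2 =
        (∑ b ∈ B i, φ (b + g)) ^ 2 - 2 * (s / (4 * m + 1)) * ∑ b ∈ B i, φ (b + g) +
          (s / (4 * m + 1)) ^ 2 := fun g => by ring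
    simp_rw [h8]
    rw [Finset.sum_add_distrib, Finset.sum_sub_distrib, ← Finset.mul_sum, sum_trans, hB.card,
      Finset.sum_const, Finset.card_univ, nsmul_eq_mul, hn, ← hs]
    rw [hQ]
    field_simp
    ring
  rw [hexp]
  have h9 : (m : ℝ) / (4 * m + 1) * s ^ 2 = s ^ 2 * (m / (4 * m + 1)) := by ring
  have h10 : s ^ 2 / (4 * m + 1) = s ^ 2 - 4 * ((m : ℝ) / (4 * m + 1) * s ^ 2) := by
    field_simp
    ring
  rw [h10]
  linarith

end Pool.Agent.H86.E153
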